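import Pool.Agent.Y649.FA.CStar

/-!
# The subdivided dodecahedron needs three fully active cops (by helper80)

The vertices `0, …, 19` are the vertices of the dodecahedron, `20, …, 49` the midpoints of its edges.
-/

set_option autoImplicit false

namespace Pool.Agent.NH60.BC

open Pool.Agent.Y649.FA

/-- the neighbours (a midpoint repeats one of its two neighbours) -/
def nbr2 : Fin 50 → Fin 3 → Fin 50 :=
  ![![20, 21, 22], ![20, 23, 24], ![23, 25, 26], ![25, 27, 28], ![27, 29, 30], ![29, 31, 32],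
    ![31, 33, 34], ![33, 35, 36], ![35, 37, 38], ![21, 37, 39], ![22, 40, 41], ![24, 42, 43],
    ![26, 40, 44], ![28, 42, 45], ![30, 44, 46], ![32, 45, 47], ![34, 46, 48], ![36, 47, 49],
    ![38, 41, 48], ![39, 43, 49], ![0, 1, 0], ![0, 9, 0], ![0, 10, 0], ![1, 2, 1], ![1, 11, 1],
    ![2, 3, 2], ![2, 12, 2], ![3, 4, 3], ![3, 13, 3], ![4, 5, 4], ![4, 14, 4], ![5, 6, 5],
    ![5, 15, 5], ![6, 7, 6], ![6, 16, 6], ![7, 8, 7], ![7, 17, 7], ![8, 9, 8], ![8, 18, 8],
    ![9, 19, 9], ![10, 12, 10], ![10, 18, 10], ![11, 13, 11], ![11, 19, 11], ![12, 14, 12],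
    ![13, 15, 13], ![14, 16, 14], ![15, 17, 15], ![16, 18, 16], ![17, 19, 17]]

/-- the vertices of the dodecahedron as vertices of the subdivided dodecahedron -/
def emb2 (v : Fin 20) : Fin 50 := Fin.castLE (by omega) v

/-- the graph of the dodecahedron with all edges subdivided once -/
def dod2 : SimpleGraph (Fin 50) where
  Adj u v := ∃ i, nbr2 u i = v
  symm := ⟨by
    rintro u v ⟨i, rfl⟩
    revert u i
    decide +kernel⟩
  loopless := ⟨by
    rintro u ⟨i, hi⟩
    revert u i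
    decide +kernel⟩

theorem dod2_adj {u v : Fin 50} : dod2.Adj u v ↔ ∃ i, nbr2 u i = v := Iff.rfl

/-- integer coordinates of a straight-line plane drawing -/
def q2 : Fin 50 → ℤ × ℤ :=
  ![(42, 6), (37, 35), (13, 41), (-18, 47), (-37, 25), (-48, -7), (-36, -29), (-13, -47),
    (17, -42), (41, -24), (65, 7), (18, 18), (11, 65), (-12, 24), (-59, 35), (-23, 0),
    (-47, -42), (-6, -23), (24, -60), (24, -13), (40, 21), (40, -8), (52, 7), (26, 37), (26, 27),
    (-2, 45), (12, 52), (-27, 37), (-16, 36), (-42, 9), (-47, 30), (-41, -19), (-37, -4),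
    (-24, -39), (-42, -37), (3, -44), (-9, -34), (28, -34), (20, -50), (31, -19), (38, 37),
    (43, -28), (3, 22), (20, 1), (-24, 49), (-17, 13), (-53, -3), (-15, -13), (-11, -52),
    (10, -19)]

/-- a spanning tree -/
def par2 : Fin 50 → Fin 50 :=
  ![0, 20, 23, 25, 27, 29, 33, 35, 37, 21, 22, 24, 40, 42, 44, 45, 48, 49, 41, 39, 0, 0, 0, 1, 1,
    2, 2, 3, 3, 4, 14, 6, 15, 7, 16, 8, 7, 9, 8, 9, 10, 10, 11, 11, 12, 13, 14, 17, 18, 19]

/-- depth in the spanning tree -/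
def dep2 : Fin 50 → ℕ :=
  ![0, 2, 4, 6, 8, 10, 8, 6, 4, 2, 2, 4, 4, 6, 6, 8, 6, 6, 4, 4, 1, 1, 1, 3, 3, 5, 5, 7, 7, 9, 7,
    9, 9, 7, 7, 5, 7, 3, 5, 3, 3, 3, 5, 5, 5, 7, 7, 7, 5, 5]

theorem dod2_conn : dod2.Connected := by
  have h1 : ∀ v : Fin 50, v = 0 ∨ (∃ i, nbr2 v i = par2 v) ∧ dep2 (par2 v) < dep2 v := by
    decide +kernel
  have key : ∀ n (v : Fin 50), dep2 v ≤ n → dod2.Reachable v 0 := by
    intro n
    induction n with
    | zero =>
      intro v hv
      rcases h1 v with rfl | ⟨_, h⟩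
      · exact SimpleGraph.Reachable.refl _
      · omega
    | succ n ih =>
      intro v hv
      rcases h1 v with rfl | ⟨h, h2⟩
      · exact SimpleGraph.Reachable.refl _
      · have hadj : dod2.Adj v (par2 v) := h
        exact hadj.reachable.trans (ih _ (by omega))
  exact { preconnected := fun u v => (key _ u le_rfl).trans (key _ v le_rfl).symm
          nonempty := ⟨0⟩ }

theorem dod2_two : ∃ col : Fin 50 → Bool, ∀ u v, dod2.Adj u v → col v = !col u := by
  refine ⟨fun u => decide (u.val < 20), ?_⟩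
  rintro u v ⟨i, rfl⟩
  revert u i
  decide +kernel

namespace Aux

/-- the position `c` of a cop blocks the way of the robber from `v` over the `j`-th edge -/
def Bad (v : Fin 20) (c : Fin 50) (j : Fin 3) : Prop :=
  c = nbr2 (emb2 v) j ∨ (∃ i, nbr2 c i = nbr2 (emb2 v) j) ∨ (∃ i, nbr2 c i = emb2 (dnb v j)) ∨
    ∃ i l, nbr2 (nbr2 c i) l = emb2 (dnb v j)

instance (v : Fin 20) (c : Fin 50) (j : Fin 3) : Decidable (Bad v c j) := by
  unfold Bad; infer_instance

theorem bad_two : ∀ v : Fin 20, ∀ c : Fin 50, c ≠ emb2 v → ∀ j j' : Fin 3, j ≠ j' →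
    ¬ (Bad v c j ∧ Bad v c j') := by
  decide +kernel

theorem way : ∀ (v : Fin 20) (j : Fin 3), ∃ i, nbr2 (nbr2 (emb2 v) j) i = emb2 (dnb v j) := by
  decide +kernel

theorem far2 : ∀ c : Fin 50, ∀ j j' : Fin 3, j ≠ j' →
    ¬ ((c = emb2 ((![0, 2, 4] : Fin 3 → Fin 20) j) ∨ ∃ i, nbr2 c i = emb2 ((![0, 2, 4] : Fin 3 → Fin 20) j)) ∧
      (c = emb2 ((![0, 2, 4] : Fin 3 → Fin 20) j') ∨
        ∃ i, nbr2 c i = emb2 ((![0, 2, 4] : Fin 3 → Fin 20) j'))) := by
  decide +kernel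

theorem evade {k : ℕ} (hk : k ≤ 2) (n : ℕ) : ∀ (c : Fin k → Fin 50) (r : Fin 20),
    (∀ i, c i ≠ emb2 r ∧ ¬ dod2.Adj (c i) (emb2 r)) → ¬ WinIn dod2 k n c (emb2 r) := by
  induction n using Nat.strong_induction_on with
  | _ n ih =>
    intro c r h hw
    match n, ih, hw with
    | 0, _, hw =>
      obtain ⟨i, hi⟩ := hw
      exact (h i).1 hi
    | n + 1, ih, hw =>
      rcases hw with ⟨i, hi⟩ | ⟨c', hc, h2⟩
      · exact (h i).1 hi
      · have hne : ∀ i, c' i ≠ emb2 r := fun i hi => (h i).2 (hi ▸ hc i)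
        rcases h2 with ⟨i, hi⟩ | h2
        · exact hne i hi
        · obtain ⟨j, hj⟩ := pigeon hk (fun i j => Bad r (c' i) j)
            (fun i j j' hjj => bad_two r (c' i) (hne i) j j' hjj)
          have h3 := h2 (nbr2 (emb2 r) j) ⟨j, rfl⟩
          match n, ih, h3 with
          | 0, _, h3 =>
            obtain ⟨i, hi⟩ := h3
            exact hj i (Or.inl hi)
          | n + 1, ih, h3 =>
            rcases h3 with ⟨i, hi⟩ | ⟨c'', hc', h4⟩
            · exact hj i (Or.inl hi)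
            · rcases h4 with ⟨i, hi⟩ | h4
              · exact hj i (Or.inr (Or.inl (hi ▸ hc' i)))
              · refine ih n (by omega) c'' (dnb r j) (fun i => ⟨fun hi => ?_, fun hi => ?_⟩)
                  (h4 _ (way r j))
                · exact hj i (Or.inr (Or.inr (Or.inl (hi ▸ hc' i))))
                · obtain ⟨a, ha⟩ := hc' i
                  obtain ⟨b, hb⟩ := hi
                  exact hj i (Or.inr (Or.inr (Or.inr ⟨a, b, by rw [ha]; exact hb⟩)))

end Aux

open Aux in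
theorem dod2_not_win {k : ℕ} (hk : k ≤ 2) : ¬ CopsWin dod2 k := by
  rintro ⟨c, hc⟩
  obtain ⟨j, hj⟩ := pigeon hk
    (fun i j => c i = emb2 ((![0, 2, 4] : Fin 3 → Fin 20) j) ∨
      ∃ l, nbr2 (c i) l = emb2 ((![0, 2, 4] : Fin 3 → Fin 20) j))
    (fun i j j' hjj => far2 (c i) j j' hjj)
  obtain ⟨n, hn⟩ := hc (emb2 ((![0, 2, 4] : Fin 3 → Fin 20) j))
  refine evade hk n c _ (fun i => ?_) hn
  have := hj i
  push Not at this
  exact ⟨this.1, fun ⟨l, hl⟩ => this.2 l hl⟩

theorem dod2_planar : Planar dod2 := by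
  refine planar_of_int dod2 q2 (by decide +kernel) ?_ ?_
  · rintro u v z ⟨i, rfl⟩
    revert u i z
    decide +kernel
  · rintro u v w x ⟨i, rfl⟩ ⟨j, rfl⟩
    revert u i w j
    decide +kernel

end Pool.Agent.NH60.BC
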