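import Pool.Agent.NH60.BC.Stm

/-!
# Three fully active cops on bipartite graphs: a guarded path and a path with a tracker
-/

set_option autoImplicit false

namespace Pool.Agent.NH60.BC

open Pool.Agent.Y649.FA Pool.Agent.Helper805.CHS

variable {V : Type} {G : SimpleGraph V}

/-- reorder the cops: `1, 0, 2` -/
def e102 : Equiv.Perm (Fin 3) := ⟨![1, 0, 2], ![1, 0, 2], by decide, by decide⟩

theorem bool3 : ∀ {x y z : Bool}, x ≠ y → z ≠ y → x = z := by decide

theorem coreD_aux [Finite V] (hiso : ∀ v, ∃ w, G.Adj v w)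
    (h33 : ¬ K33Model G) {col : V → Bool} (h2c : Two G col) {T : Set V}
    (IHD : ∀ T', T' ⊂ T → WinD G col T') (WS : WinS G col T)
    {S₁ : Set V} {Rel : V → V → Prop} {Q : ℕ → V} {n : ℕ} {ℓ : V → ℕ} {p : ℕ → V} {m s t : ℕ}
    (h : SD G T S₁ Rel Q n ℓ p m s t) (hpar : Par T Q n ℓ col)
    (hreal : ∀ u, u ∈ T → ∃ i, i ≤ n ∧ ∃ L w, Wk G T L w ∧ w 0 = Q i ∧ w L = u ∧ i + L = ℓ u)
    (hle : ∀ i, i ≤ n → ∀ L w, Wk G T L w → w 0 = Q i → w L ∈ T → ℓ (w L) ≤ i + L)
    (htwo : ∃ x y, x ∈ Nb G T ∧ y ∈ Nb G T ∧ x ≠ y)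
    (c : Fin 3 → V) (r : V) (hr : r ∈ T) (hc0 : Rel (c 0) r) (hc1 : low Q n ℓ (c 1) r)
    (hc2 : low Q n ℓ (c 2) r) (hcol : col (c 2) = col r) : WR G 3 c r := by
  classical
  have hst := h.st
  have htn := h.tn
  have hs0 : p 0 = Q s := h.two.hs
  have hsm : p m = Q t := by
    have h1 : p m = Q (s + (t - s)) := h.two.ht
    rwa [show s + (t - s) = t by omega] at h1
  by_cases hasc : ∃ b, b ≤ n ∧ ∃ u, u ∈ T ∧ G.Adj u (Q b) ∧ ℓ u + 1 = b
  · set b := Nat.find hasc with hbdef
    obtain ⟨hbn, u, hu, huQ, hub⟩ := Nat.find_spec hasc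
    rw [← hbdef] at hbn huQ hub
    have hbmin : ∀ u, u ∈ T → ∀ j, j ≤ n → G.Adj u (Q j) → ℓ u + 1 = j → b ≤ j :=
      fun u hu j hj h1 h2 => Nat.find_min' hasc ⟨hj, u, hu, h1, h2⟩
    obtain ⟨a, han, L, w, hw, hw0, hwL, haL⟩ := hreal u hu
    have hL1 : 1 ≤ L := by
      by_contra hcon
      have : L = 0 := by omega
      subst this
      exact h.QT a han (by rw [← hw0, hwL]; exact hu)
    obtain ⟨w', hw', hw'0, hw'M, hw'k⟩ := hw.snoc (v := Q b) (by rwa [hwL]) (Or.inl (by rwa [hwL]))
    rw [hw0] at hw'0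
    obtain ⟨M, hM⟩ : ∃ M, M = L + 1 := ⟨_, rfl⟩
    rw [← hM] at hw' hw'M
    have hM2 : 2 ≤ M := by omega
    have hbM : b = a + M := by omega
    have hwT : ∀ k, 0 < k → k < M → w' k ∈ T := hw'.2
    have hwlev : ∀ k, 0 < k → k < M → ℓ (w' k) = a + k := by
      intro k h0 hk
      have h1 := hle a han k w' (hw'.pre hk.le) hw'0 (hwT k h0 hk)
      have h2 := h.lev.lip_walk hw' h0 (L - k) (by omega)
      rw [show k + (L - k) = L by omega, hw'k L le_rfl, hwL] at h2
      omega
    have hwinj : ∀ i j, i ≤ M → j ≤ M → w' i = w' j → i = j := by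
      have key : ∀ i j, i < j → j ≤ M → w' i ≠ w' j := by
        intro i j hij hj he
        by_cases ci : i = 0
        · subst ci
          by_cases cj : j = M
          · subst cj
            rw [hw'0, hw'M] at he
            have := h.Qinj _ _ han hbn he
            omega
          · rw [hw'0] at he
            exact h.QT a han (he ▸ hwT j (by omega) (by omega))
        · by_cases cj : j = M
          · subst cj
            rw [hw'M] at he
            exact h.QT b hbn (he ▸ hwT i (by omega) (by omega))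
          · have h1 := hwlev i (by omega) (by omega)
            have h2 := hwlev j (by omega) (by omega)
            rw [he] at h1
            omega
      intro i j hi hj he
      rcases Nat.lt_trichotomy i j with h1 | h1 | h1
      · exact absurd he (key i j h1 hj)
      · exact h1
      · exact absurd he.symm (key j i h1 hi)
    have hwQ : ∀ k, 0 < k → k < M → ∀ i, i ≤ n → w' k ≠ Q i := fun k h0 hk i hi he =>
      h.QT i hi (he ▸ hwT k h0 hk)
    have hwp : ∀ k, 0 < k → k < M → ∀ i, i ≤ m → w' k ≠ p i := fun k h0 hk i hi he =>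
      h.pT i hi (he ▸ hwT k h0 hk)
    obtain ⟨Q', hQ'⟩ : ∃ Q', Q' = cat3 Q a w' M Q b := ⟨_, rfl⟩
    have v1 : ∀ k, k ≤ a → Q' k = Q k := fun k hk => by rw [hQ', cat3_1 hk]
    have v2 : ∀ k, k ≤ M → Q' (a + k) = w' k := fun k hk => by
      rw [hQ', cat3_2 hw'0.symm (by omega) (by omega)]; congr 1; omega
    have v3 : ∀ k, b ≤ k → Q' k = Q k := fun k hk => by
      rw [hQ', cat3_3 hw'0.symm hw'M (by omega)]; congr 1; omega
    have v2' : ∀ k, a < k → k < b → Q' k = w' (k - a) := fun k h1 h2 => by
      rw [← v2 (k - a) (by omega)]; congr 1; omega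
    have hinjQ' : ∀ i j, i ≤ n → j ≤ n → Q' i = Q' j → i = j := by
      have h1 := cat3_inj (s := n - b) hw'0.symm hw'M
        (fun i j hi hj => h.Qinj i j (by omega) (by omega)) hwinj
        (fun i j hi hj he => by have := h.Qinj _ _ (by omega) (by omega) he; omega)
        (fun i j hi hj he => by have := h.Qinj _ _ (by omega) (by omega) he; omega)
        (fun k h0 hk i hi => hwQ k h0 hk i (by omega))
        (fun k h0 hk i hi => hwQ k h0 hk _ (by omega))
      rw [show a + M + (n - b) = n by omega, ← hQ'] at h1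
      exact h1
    have hlev' : Lev G T Q' n ℓ := by
      refine ⟨h.lev.n1, ?_, h.lev.pos, h.lev.lip, ?_, ?_, ?_⟩
      · have h1 := cat3_adj (G := G) (s := n - b) hw'0.symm hw'M
          (fun k hk => h.lev.adj k (by omega)) hw'.1 (fun k hk => h.lev.adj (b + k) (by omega))
        rw [show a + M + (n - b) = n by omega, ← hQ'] at h1
        exact h1
      · intro u hu j hj huj
        by_cases c1 : j ≤ a
        · rw [v1 j c1] at huj; exact h.lev.ent1 u hu j hj huj
        · by_cases c2 : j < b
          · rw [v2' j (by omega) c2] at huj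
            have h1 := h.lev.lip _ _ (hwT (j - a) (by omega) (by omega)) hu huj.symm
            have h2 := hwlev (j - a) (by omega) (by omega)
            omega
          · rw [v3 j (by omega)] at huj; exact h.lev.ent1 u hu j hj huj
      · intro u hu j hj huj
        by_cases c1 : j ≤ a
        · rw [v1 j c1] at huj; exact h.lev.ent2 u hu j hj huj
        · by_cases c2 : j < b
          · rw [v2' j (by omega) c2] at huj
            have h1 := h.lev.lip _ _ hu (hwT (j - a) (by omega) (by omega)) huj
            have h2 := hwlev (j - a) (by omega) (by omega)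
            omega
          · rw [v3 j (by omega)] at huj; exact h.lev.ent2 u hu j hj huj
      · intro j hj hjT
        by_cases c1 : j ≤ a
        · rw [v1 j c1] at hjT; exact absurd hjT (h.QT j hj)
        · by_cases c2 : j < b
          · rw [v2' j (by omega) c2]
            have h2 := hwlev (j - a) (by omega) (by omega)
            omega
          · rw [v3 j (by omega)] at hjT; exact absurd hjT (h.QT j hj)
    have hw1 : w' 1 ∈ T := hwT 1 (by omega) (by omega)
    have hw1S : w' 1 ∈ IntS w' M := ⟨1, by omega, by omega, rfl⟩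
    have hsa : s ≤ a := by
      refine (h.Qst a han ⟨h.QT a han, w' 1, hw1, ?_⟩).1
      have := hw'.1 0 (by omega)
      rw [hw'0] at this
      exact this.symm
    have hbt : b ≤ t := (h.Qst b hbn ⟨h.QT b hbn, u, hu, huQ⟩).2
    -- exits against the old pair
    have exitQ : ∀ c1 r j, low Q n ℓ c1 r → r ∈ T → j ≤ n → G.Adj r (Q j) →
        (c1 = Q j ∨ G.Adj c1 (Q j)) ∨ (ℓ r + 1 = j ∧ b ≤ j) := by
      intro c1 r j h1 hr hj hrj
      by_cases hle' : j ≤ ℓ r
      · exact Or.inl (h.lev.low_ent h1 hr hj hrj hle')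
      · have := h.lev.ent2 r hr j hj hrj
        exact Or.inr ⟨by omega, hbmin r hr j hj hrj (by omega)⟩
    have hpar' : Par T Q' n ℓ col := by
      intro u hu i hi
      by_cases c1 : i ≤ a
      · rw [v1 i c1]; exact hpar u hu i hi
      · by_cases c2 : i < b
        · rw [v2' i (by omega) c2]
          have h1 := hpar u hu a han
          have h2 := hpar _ (hwT (i - a) (by omega) (by omega)) a han
          have h3 := hwlev (i - a) (by omega) (by omega)
          rw [h3] at h2
          constructor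
          · intro h4
            rw [h4] at h1
            have h5 := h1.symm.trans h2
            omega
          · intro h4
            by_cases h5 : (ℓ u + a) % 2 = 0
            · rw [h1.2 h5]
              exact (h2.2 (by omega)).symm
            · have h6 : col u ≠ col (Q a) := fun h => h5 (h1.1 h)
              have h7 : col (w' (i - a)) ≠ col (Q a) := fun h => by
                have := h2.1 h
                omega
              exact bool3 h6 h7
        · rw [v3 i (by omega)]; exact hpar u hu i hi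
    -- cop `2` moves to `Q'`
    have hup0 : up Q n ℓ (c 2) r := rt_up hpar hr hc2 hcol
    have hinit : rtr Q Q' n b ℓ (2 * b) (c 2) r := rtr_init v3 hup0
    refine run hiso T (fun m => ![Rel, low Q n ℓ,
      fun c r => rtr Q Q' n b ℓ m c r ∧ col c = col r]) ?_ ?_ ?_ (2 * b) c r ?_ hr
    · intro m i c r r' hc hr hr' hrr
      fin_cases i
      · exact h.sg.1 c r r' hc hr hr' hrr
      · exact h.lev.low_step hc hr hr' hrr
      · obtain ⟨c', h3, h4⟩ := rtr_step h.lev hlev' hbn v3
          (show rtr Q Q' n b ℓ (m + 1) c r from hc.1) hr hr' hrr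
        exact ⟨c', h3, h4, h2c.flip hc.2 h3 hrr⟩
    · intro m c r r' hc hr hr' hrr
      have hc2 : rtr Q Q' n b ℓ (m + 1) (c 2) r ∧ col (c 2) = col r := hc 2
      rcases h.nb r' ⟨hr', r, hr, hrr⟩ with h1 | ⟨j, _, hj, rfl⟩
      · exact ⟨0, h.sg.2 (c 0) r r' (hc 0) hr h1 hrr⟩
      · rcases exitQ (c 1) r j (hc 1) hr (by omega) hrr with h2 | ⟨h2, h3⟩
        · exact ⟨1, h2⟩
        · exact ⟨2, rtr_ent h.lev hlev' hbn v3 hc2.1 hr (by omega) h3 hrr h2⟩
    · clear hc0 hc1 hc2 hcol hup0 hinit hr
      clear c r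
      intro c r hc hr
      have hc2 : rtr Q Q' n b ℓ 0 (c 2) r ∧ col (c 2) = col r := hc 2
      have hlow' : low Q' n ℓ (c 2) r := rt_of_up hpar' hr (rtr_zero hc2.1) hc2.2
      refine settle hiso T (IntS w' M) ![Rel, low Q n ℓ,
        fun c r => low Q' n ℓ c r ∧ col c = col r] ?_ ?_ ?_ c r ?_ hr
      · intro i c r r' hc hr hr' hrr
        fin_cases i
        · exact h.sg.1 c r r' hc hr hr' hrr
        · exact h.lev.low_step hc hr hr' hrr
        · exact low_step' h2c hlev' hc hr hr' hrr
      · intro c r r' hc hr hr' hrr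
        have hc2 : low Q' n ℓ (c 2) r ∧ col (c 2) = col r := hc 2
        rcases hr' with hr' | ⟨k, h0, hk, rfl⟩
        · rcases h.nb r' ⟨hr', r, hr, hrr⟩ with h1 | ⟨j, _, hj, rfl⟩
          · exact ⟨0, h.sg.2 (c 0) r r' (hc 0) hr h1 hrr⟩
          · rcases exitQ (c 1) r j (hc 1) hr (by omega) hrr with h2 | ⟨h2, h3⟩
            · exact ⟨1, h2⟩
            · rw [← v3 j h3] at hrr ⊢
              exact ⟨2, rt_ent hlev' hpar' hr hc2.1 hc2.2 (by omega) hrr⟩
        · rw [← v2 k hk.le] at hrr ⊢
          exact ⟨2, rt_ent hlev' hpar' hr hc2.1 hc2.2 (by omega) hrr⟩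
      · clear hlow' hc2 hc hr
        clear c r
        intro c r hc hr hrS
        have hc2 : low Q' n ℓ (c 2) r ∧ col (c 2) = col r := hc 2
        set T' := Comp G (T \ IntS w' M) r with hT'
        have hsub : T' ⊆ T := fun x hx => (comp_sub hx).1
        have hconn' : (G.induce T').Connected := comp_conn ⟨hr, hrS⟩
        have hss : T' ⊂ T := comp_ssub hw1 hw1S
        have hself : r ∈ T' := self_mem_comp ⟨hr, hrS⟩
        have hwT' : ∀ k, 0 < k → k < M → w' k ∉ T' :=
          fun k h0 hk hh => (comp_sub hh).2 ⟨k, h0, hk, rfl⟩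
        have hpT' : ∀ i, i ≤ m → p i ∉ T' := fun i hi hh => h.pT i hi (hsub hh)
        have hQT' : ∀ i, i ≤ n → Q i ∉ T' := fun i hi hh => h.QT i hi (hsub hh)
        have hQ'T' : ∀ i, i ≤ n → Q' i ∉ T' := by
          intro i hi
          by_cases c1 : i ≤ a
          · rw [v1 i c1]; exact hQT' i hi
          · by_cases c2 : i < b
            · rw [v2' i (by omega) c2]; exact hwT' _ (by omega) (by omega)
            · rw [v3 i (by omega)]; exact hQT' i hi
        have hadj3 : ∃ t ∈ T', ∃ k, 0 < k ∧ k < M ∧ G.Adj t (w' k) := by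
          obtain ⟨t, ht, x, ⟨k, h0, hk, rfl⟩, _, hadj'⟩ := comp_adj h.conn hr hrS hw1 hw1S
          exact ⟨t, ht, k, h0, hk, hadj'⟩
        have hQadj' : ∃ j, j ≤ n ∧ ∃ u, u ∈ T' ∧ G.Adj u (Q' j) := by
          obtain ⟨t, ht, k, h0, hk, hadj'⟩ := hadj3
          exact ⟨a + k, by omega, t, ht, by rwa [v2 k hk.le]⟩
        have hsh : ∀ i, s ≤ i → Q (s + (i - s)) = Q i := by
          intro i hi
          congr 1; omega
        have ja : w' 0 = (fun k => Q (s + k)) (a - s) := hw'0.trans (hsh a hsa).symm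
        have jb : w' M = (fun k => Q (s + k)) (b - s) := hw'M.trans (hsh b (by omega)).symm
        have hth : ∀ t₁ ∈ T', ∀ i, a < i → i < b → G.Adj t₁ (Q i) →
            ∀ t' ∈ T', ∀ x, ((∃ i, s ≤ i ∧ i < a ∧ x = Q i) ∨ (∃ i, b < i ∧ i ≤ t ∧ x = Q i) ∨
              (∃ i, 0 < i ∧ i < m ∧ x = p i)) → ¬ G.Adj t' x := by
          intro t₁ ht₁ i hi hi2 hadj t' ht' x hx hadj'
          refine theta_pp h33 (a := a - s) (b := b - s) h.two.symm (by omega) (by omega) hw'.1
            ja jb
            (fun k h0 hk i hi => hwQ k h0 hk _ (by omega)) hwp hwT'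
            (fun i hi => hQT' _ (by omega)) hpT' hconn'
            ⟨t₁, ht₁, i - s, by omega, by omega, (hsh i (by omega)).symm ▸ hadj⟩
            ⟨t', ht', x, ?_, hadj'⟩ hadj3
          rcases hx with ⟨i, h1, h2, rfl⟩ | ⟨i, h1, h2, rfl⟩ | ⟨i, h1, h2, rfl⟩
          · exact Or.inl ⟨i - s, by omega, (hsh i h1).symm⟩
          · exact Or.inr (Or.inl ⟨i - s, by omega, by omega, (hsh i (by omega)).symm⟩)
          · exact Or.inr (Or.inr ⟨i, h1, h2, rfl⟩)
        by_cases hD : ∃ t₁ ∈ T', ∃ i, a < i ∧ i < b ∧ G.Adj t₁ (Q i)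
        · obtain ⟨t₁, ht₁, i₁, hi₁, hi₂, hadj₁⟩ := hD
          have hout := hth t₁ ht₁ i₁ hi₁ hi₂ hadj₁
          refine WR.of_perm e102 ?_
          refine IHD T' hss {x | ∃ j, a ≤ j ∧ j < b ∧ x = Q j} (low Q n ℓ) Q' n ℓ
            (fun k => Q (a + k)) (b - a) a b ?_ (hpar'.mono hsub) _ r hself (hc 1) hc2.1 hc2.2
          refine ⟨comp_tconn, ⟨?_, ?_⟩, hlev'.mono hsub, hQ'T', hinjQ', by omega, hbn, ?_, ?_, ?_,
            ?_, ?_, ?_, hQadj'⟩
          · intro c r r' h1 h2 h3 h4
            exact h.lev.low_step h1 (hsub h2) (hsub h3) h4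
          · rintro c r r' h1 h2 ⟨j, hj, hj2, rfl⟩ h4
            rcases exitQ c r j h1 (hsub h2) (by omega) h4 with h5 | ⟨_, h5⟩
            · exact h5
            · omega
          · have h1 := twoA (a := a - s) (b := b - s) h.two.symm (by omega) (by omega) hM2 hw'.1
              ja jb hwinj
              (fun k h0 hk i hi => hwQ k h0 hk _ (by omega))
            have h2 := h1.congr (q' := fun k => Q' (a + k)) v2
            have e1 : (fun k => (fun k => Q (s + k)) (a - s + k)) = fun k => Q (a + k) := by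
              funext k
              show Q (s + (a - s + k)) = Q (a + k)
              congr 1; omega
            rw [e1, show b - s - (a - s) = b - a by omega, show M = b - a by omega] at h2
            exact h2
          · intro i hi; exact hQT' _ (by omega)
          · exact ((h.lev.geo h.QT).sub (by omega)).mono hsub
          · rintro x ⟨j, hj, hj2, rfl⟩
            exact ⟨j - a, by omega, by show Q j = Q (a + (j - a)); congr 1; omega⟩
          · intro x hx
            have hx2 := hx
            obtain ⟨hxT', t', ht', hadj'⟩ := hx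
            rcases nb_comp hx2 with h1 | ⟨⟨k, h0, hk, rfl⟩, _⟩
            · have hQj : ∃ j, s ≤ j ∧ j ≤ t ∧ x = Q j := by
                rcases h.nb x h1 with h2 | h2
                · obtain ⟨i, hi, rfl⟩ := h.S₁p x h2
                  by_cases c0 : i = 0
                  · subst c0; exact ⟨s, le_rfl, by omega, hs0⟩
                  · by_cases cm : i = m
                    · subst cm; exact ⟨t, by omega, le_rfl, hsm⟩
                    · exact absurd hadj' (hout t' ht' _
                        (Or.inr (Or.inr ⟨i, by omega, by omega, rfl⟩)))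
                · exact h2
              obtain ⟨j, hj1, hj2, rfl⟩ := hQj
              by_cases c1 : j < a
              · exact absurd hadj' (hout t' ht' _ (Or.inl ⟨j, hj1, c1, rfl⟩))
              · by_cases c2 : b < j
                · exact absurd hadj' (hout t' ht' _ (Or.inr (Or.inl ⟨j, c2, hj2, rfl⟩)))
                · by_cases c3 : j = b
                  · right
                    exact ⟨b, by omega, le_rfl, by rw [c3, v3 b le_rfl]⟩
                  · left; exact ⟨j, by omega, by omega, rfl⟩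
            · right
              exact ⟨a + k, by omega, by omega, (v2 k hk.le).symm⟩
          · intro j hj hjN
            obtain ⟨_, t', ht', hadj'⟩ := hjN
            constructor
            · by_contra hcon
              rw [v1 j (by omega)] at hadj'
              have h1 := h.Qst j hj ⟨h.QT j hj, t', hsub ht', hadj'⟩
              exact hout t' ht' _ (Or.inl ⟨j, h1.1, by omega, rfl⟩) hadj'
            · by_contra hcon
              rw [v3 j (by omega)] at hadj'
              have h1 := h.Qst j hj ⟨h.QT j hj, t', hsub ht', hadj'⟩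
              exact hout t' ht' _ (Or.inr (Or.inl ⟨j, by omega, h1.2, rfl⟩)) hadj'
        · have hD' : ∀ t₁ ∈ T', ∀ i, a < i → i < b → ¬ G.Adj t₁ (Q i) :=
            fun t₁ ht₁ i h1 h2 h3 => hD ⟨t₁, ht₁, i, h1, h2, h3⟩
          refine IHD T' hss S₁ Rel Q' n ℓ p m s t ?_ (hpar'.mono hsub) c r hself (hc 0) hc2.1 hc2.2
          refine ⟨comp_tconn, h.sg.mono hsub le_rfl, hlev'.mono hsub, hQ'T', hinjQ', hst, htn,
            ?_, hpT', h.geo.mono hsub, h.S₁p, ?_, ?_, hQadj'⟩
          · have h1 := twoB (a := a - s) (b := b - s) h.two.symm (by omega) (by omega) hM2 hw'.1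
              ja jb hwinj
              (fun k h0 hk i hi => hwQ k h0 hk _ (by omega)) hwp
            rw [show a - s + M + (t - s - (b - s)) = t - s by omega] at h1
            refine h1.congr ?_
            intro k hk
            show Q' (s + k) = _
            by_cases c1 : k ≤ a - s
            · rw [cat3_1 c1, v1 _ (by omega)]
            · by_cases c2 : k < a - s + M
              · rw [cat3_2 (α := fun k => Q (s + k)) (u := a - s) ja.symm (by omega) c2.le, v2' _ (by omega) (by omega)]
                congr 1; omega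
              · rw [cat3_3 (α := fun k => Q (s + k)) (u := a - s) (β := fun k => Q (s + k)) (v := b - s)
                  ja.symm jb (by omega), v3 _ (by omega)]
                show Q (s + k) = Q (s + (b - s + (k - (a - s + M))))
                congr 1; omega
          · intro x hx
            have hx2 := hx
            obtain ⟨hxT', t', ht', hadj'⟩ := hx
            rcases nb_comp hx2 with h1 | ⟨⟨k, h0, hk, rfl⟩, _⟩
            · rcases h.nb x h1 with h2 | ⟨j, hj1, hj2, rfl⟩
              · exact Or.inl h2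
              · right
                by_cases c1 : j ≤ a
                · exact ⟨j, hj1, hj2, (v1 j c1).symm⟩
                · by_cases c2 : j < b
                  · exact absurd hadj' (hD' t' ht' j (by omega) c2)
                  · exact ⟨j, hj1, hj2, (v3 j (by omega)).symm⟩
            · right
              exact ⟨a + k, by omega, by omega, (v2 k hk.le).symm⟩
          · intro j hj hjN
            obtain ⟨_, t', ht', hadj'⟩ := hjN
            by_cases c1 : j ≤ a
            · rw [v1 j c1] at hadj'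
              exact h.Qst j hj ⟨h.QT j hj, t', hsub ht', hadj'⟩
            · by_cases c2 : j < b
              · omega
              · rw [v3 j (by omega)] at hadj'
                exact h.Qst j hj ⟨h.QT j hj, t', hsub ht', hadj'⟩
      · intro i
        fin_cases i
        · exact hc 0
        · exact hc 1
        · exact ⟨hlow', hc2.2⟩
    · intro i
      fin_cases i
      · exact hc0
      · exact hc1
      · exact ⟨hinit, hcol⟩
  · -- no ascending entries: one tracker suffices
    have hno : ∀ u, u ∈ T → ∀ j, j ≤ n → G.Adj u (Q j) → j ≤ ℓ u := by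
      intro u hu j hj huj
      by_contra hcon
      have := h.lev.ent2 u hu j hj huj
      exact hasc ⟨j, hj, u, hu, huj, by omega⟩
    refine WS S₁ {x | ∃ j, s ≤ j ∧ j ≤ t ∧ x = Q j} Rel (low Q n ℓ) p m (fun k => Q (s + k))
      (t - s) ?_ c r hr hc0 hc1 hcol
    refine ⟨h.conn, h.sg, ⟨?_, ?_⟩, h.two, h.pT, fun i hi => h.QT _ (by omega), h.geo,
      (h.lev.geo h.QT).sub (by omega), h.nb, h.S₁p, ?_, htwo⟩
    · intro c r r' h1 h2 h3 h4
      exact h.lev.low_step h1 h2 h3 h4
    · rintro c r r' h1 h2 ⟨j, hj, hj2, rfl⟩ h4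
      exact h.lev.low_ent h1 h2 (by omega) h4 (hno r h2 j (by omega) h4)
    · rintro x ⟨j, hj, hj2, rfl⟩
      exact ⟨j - s, by omega, by show Q j = Q (s + (j - s)); congr 1; omega⟩

theorem coreD [Finite V] (hiso : ∀ v, ∃ w, G.Adj v w) (hconn : G.Connected)
    (h33 : ¬ K33Model G) {col : V → Bool} (h2c : Two G col) {T : Set V}
    (IHD : ∀ T', T' ⊂ T → WinD G col T') (WS : WinS G col T)
    {S₁ : Set V} {Rel : V → V → Prop} {Q : ℕ → V} {n : ℕ} {ℓ : V → ℕ} {p : ℕ → V} {m s t : ℕ}
    (h : SD G T S₁ Rel Q n ℓ p m s t) (hpar : Par T Q n ℓ col)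
    (hreal : ∀ u, u ∈ T → ∃ i, i ≤ n ∧ ∃ L w, Wk G T L w ∧ w 0 = Q i ∧ w L = u ∧ i + L = ℓ u)
    (hle : ∀ i, i ≤ n → ∀ L w, Wk G T L w → w 0 = Q i → w L ∈ T → ℓ (w L) ≤ i + L)
    (htwo : ∃ x y, x ∈ Nb G T ∧ y ∈ Nb G T ∧ x ≠ y)
    (c : Fin 3 → V) (r : V) (hr : r ∈ T) (hc0 : Rel (c 0) r) (hc2 : low Q n ℓ (c 2) r)
    (hcol : col (c 2) = col r) : WR G 3 c r := by
  have htn := h.tn
  obtain ⟨m₀, hm₀⟩ := rlow_init hconn Q n ℓ (c 1) r
  refine run hiso T (fun m => ![Rel, rlow G Q n ℓ m, fun c r => low Q n ℓ c r ∧ col c = col r])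
    ?_ ?_ ?_ m₀ c r ?_ hr
  · intro m i c r r' hc hr hr' hrr
    fin_cases i
    · exact h.sg.1 c r r' hc hr hr' hrr
    · exact h.lev.rlow_step hc hr hr' hrr
    · exact low_step' h2c h.lev hc hr hr' hrr
  · intro m c r r' hc hr hr' hrr
    have hc2 : low Q n ℓ (c 2) r ∧ col (c 2) = col r := hc 2
    rcases h.nb r' ⟨hr', r, hr, hrr⟩ with h1 | ⟨j, _, hj, rfl⟩
    · exact ⟨0, h.sg.2 (c 0) r r' (hc 0) hr h1 hrr⟩
    · exact ⟨2, rt_ent h.lev hpar hr hc2.1 hc2.2 (by omega) hrr⟩
  · intro c r hc hr
    have hc2 : low Q n ℓ (c 2) r ∧ col (c 2) = col r := hc 2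
    exact coreD_aux hiso h33 h2c IHD WS h hpar hreal hle htwo c r hr (hc 0)
      (h.lev.rlow_zero (hc 1)) hc2.1 hc2.2
  · intro i
    fin_cases i
    · exact hc0
    · exact hm₀
    · exact ⟨hc2, hcol⟩

end Pool.Agent.NH60.BC
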