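import Pool.Agent.NH60.BC.Stm

/-!
# The robber is confined by one guarded edge: three cops
-/

set_option autoImplicit false

namespace Pool.Agent.NH60.BC

open Pool.Agent.Y649.FA Pool.Agent.Helper805.CHS

variable {V : Type} {G : SimpleGraph V}

theorem stepE [Finite V] (hiso : ∀ v, ∃ w, G.Adj v w) (hconn : G.Connected) {col : V → Bool}
    (h2c : Two G col) {T : Set V} (IHE : ∀ T', T' ⊂ T → WinE G col T')
    (IHD : ∀ T', T' ⊂ T → WinD G col T') : WinE G col T := by
  classical
  intro c r v w hr hT hvw hvT hwT hNb hc hcol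
  have hex : ∀ c0 r r' : V, (c0 = v ∨ c0 = w) → r ∈ T → r' ∉ T → G.Adj r r' →
      (c0 = r' ∨ G.Adj c0 r') := by
    intro c0 r r' hc0 hr hr' hrr
    rcases hNb r' ⟨hr', r, hr, hrr⟩ with rfl | rfl
    · rcases hc0 with rfl | rfl
      · exact Or.inl rfl
      · exact Or.inr hvw.symm
    · rcases hc0 with rfl | rfl
      · exact Or.inr hvw
      · exact Or.inl rfl
  have hst : ∀ c r r' : V, (c = v ∨ c = w) → r ∈ T → r' ∈ T → G.Adj r r' →
      ∃ c', G.Adj c c' ∧ (c' = v ∨ c' = w) := by
    intro c r r' hc _ _ _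
    rcases hc with rfl | rfl
    · exact ⟨w, hvw, Or.inr rfl⟩
    · exact ⟨v, hvw.symm, Or.inl rfl⟩
  have htriv : ∀ c r r' : V, True → r ∈ T → r' ∈ T → G.Adj r r' → ∃ c', G.Adj c c' ∧ True := by
    intro c r r' _ _ _ _
    obtain ⟨c', hc'⟩ := hiso c
    exact ⟨c', hc', trivial⟩
  by_cases hboth : v ∈ Nb G T ∧ w ∈ Nb G T
  · -- both attached
    have hP : ∃ L W, 2 ≤ L ∧ Wk G T L W ∧ W 0 = v ∧ W L = w := nb_walk hT hboth.1 hboth.2
    set L := Nat.find hP with hLdef
    obtain ⟨W, hL2, hW, hW0, hWL⟩ := Nat.find_spec hP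
    rw [← hLdef] at hL2 hW hWL
    have hmin : ∀ L' W', Wk G T L' W' → W' 0 = v → W' L' = w → 2 ≤ L' → L ≤ L' :=
      fun L' W' h1 h2 h3 h4 => Nat.find_min' hP ⟨W', h4, h1, h2, h3⟩
    have hWinj := min_inj hL2 hW (by rwa [hW0]) (by rwa [hWL]) (by rw [hW0, hWL]; exact hvw.ne)
      (fun L' W' h1 h2 h3 h4 => hmin L' W' h1 (h2.trans hW0) (h3.trans hWL) h4)
    let p : ℕ → V := fun k => if k = 0 then v else w
    have hp0 : p 0 = v := by simp [p]
    have hp1 : p 1 = w := by simp [p]
    have hWT : ∀ k, 0 < k → k < L → W k ∈ T := hW.2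
    have hgeo : GeoT G T W L := by
      have h1 := geo_cat3 (G := G) (T := T) (α := p) (β := p) (w := W) (u := 0) (L := L) (v := 1)
        (s := 0) (by rw [hp0, hW0]) (by rw [hp1, hWL]) hW
        (by intro i hi; rw [show i = 0 by omega, hp0]; exact hvT)
        (by intro i hi; rw [show i = 0 by omega]; simpa [hp1] using hwT)
        (by intro i j hi hj; omega) (by intro i j hi hj; omega)
        (by
          intro i hi j hj L' w' h1 h2 h3 h4
          have hi0 : i = 0 := by omega
          have hj0 : j = 0 := by omega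
          subst hi0; subst hj0
          have := hmin L' w' h1 (h2.trans hp0) (by rw [h3]; exact hp1) h4
          omega)
      have h2 : GeoT G T W (0 + L + 0) := h1.congr fun k hk => by
        rw [cat3_2 (by rw [hp0, hW0]) (by omega) (by omega)]; simp
      simpa using h2
    obtain ⟨ℓ, hlev, hreal, -⟩ := exists_lev (by omega : 1 ≤ L) hW.1 hWinj hgeo (by rwa [hW0])
      (fun u hu => by
        obtain ⟨L', w', h1, h2, h3⟩ := hT (W 1) (hWT 1 (by omega) (by omega)) u hu
        exact ⟨1, by omega, L', w', h1, h2, h3⟩)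
    have hpar : Par T W L ℓ col := par_of_real h2c hW.1 hreal
    refine pair_est hiso hconn h2c (R0 := fun c _ => c = v ∨ c = w) (R1 := fun _ _ => True)
      hst htriv (fun c0 c1 r r' h0 _ hr hr' hrr => Or.inl (hex c0 r r' h0 hr hr' hrr)) hlev hpar ?_
      c r hc trivial hcol hr
    intro c r hc0 _ hlow hcol hr hrP
    have hrS : r ∉ IntS W L := by
      rintro ⟨k, h0, hk, rfl⟩
      exact hrP k hk.le rfl
    have hsub : Comp G (T \ IntS W L) r ⊆ T := fun x hx => (comp_sub hx).1
    have hWS : W 1 ∈ IntS W L := ⟨1, by omega, by omega, rfl⟩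
    have hW1 : W 1 ∈ T := hWT 1 (by omega) (by omega)
    refine IHD (Comp G (T \ IntS W L) r) (comp_ssub hW1 hWS) {v, w}
      (fun c _ => c = v ∨ c = w) W L ℓ p 1 0 L ?_ (hpar.mono hsub) c r
      (self_mem_comp ⟨hr, hrS⟩) hc0 hlow hcol
    refine ⟨comp_tconn, ⟨?_, ?_⟩, hlev.mono hsub, ?_, hWinj, by omega, le_rfl, ?_, ?_, ?_, ?_, ?_,
      ?_, ?_⟩
    · intro c r r' h1 h2 h3 h4
      exact hst c r r' h1 (hsub h2) (hsub h3) h4
    · intro c r r' h1 h2 h3 h4
      have h5 : r' = v ∨ r' = w := h3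
      have h6 : r' ∉ T := by rcases h5 with rfl | rfl <;> assumption
      exact hex c r r' h1 (hsub h2) h6 h4
    · intro i hi hiC
      by_cases h0 : i = 0
      · subst h0; rw [hW0] at hiC; exact hvT (hsub hiC)
      · by_cases h1 : i = L
        · subst h1; rw [hWL] at hiC; exact hwT (hsub hiC)
        · exact (comp_sub hiC).2 ⟨i, by omega, by omega, rfl⟩
    · have hcr : ∀ i j, i ≤ 1 → j ≤ L → p i = W j → (i = 0 ∧ j = 0) ∨ (i = 1 ∧ j = L) := by
        intro i j hi hj he
        rcases (show i = 0 ∨ i = 1 by omega) with rfl | rfl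
        · left
          rw [hp0, ← hW0] at he
          have := hWinj _ _ (by omega) hj he; omega
        · right
          rw [hp1, ← hWL] at he
          have := hWinj _ _ le_rfl hj he; omega
      have htwo : TwoPath G p 1 W L := by
        refine ⟨le_rfl, by omega, ?_, hW.1, ?_, hWinj, by rw [hp0, hW0], by rw [hp1, hWL], hcr⟩
        · intro k hk
          have : k = 0 := by omega
          subst this
          rw [hp0, hp1]; exact hvw
        · intro i j hi hj he
          rcases (show i = 0 ∨ i = 1 by omega) with rfl | rfl <;>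
            rcases (show j = 0 ∨ j = 1 by omega) with rfl | rfl
          · rfl
          · rw [hp0, hp1] at he; exact absurd he hvw.ne
          · rw [hp0, hp1] at he; exact absurd he.symm hvw.ne
          · rfl
      simpa using htwo
    · intro i hi hiC
      rcases (show i = 0 ∨ i = 1 by omega) with rfl | rfl
      · rw [hp0] at hiC; exact hvT (hsub hiC)
      · rw [hp1] at hiC; exact hwT (hsub hiC)
    · intro i j hi hj L' w' _ _ _ hc'
      rcases hc' with h | h <;> omega
    · intro x hx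
      rcases (show x = v ∨ x = w from hx) with rfl | rfl
      · exact ⟨0, by omega, hp0.symm⟩
      · exact ⟨1, by omega, hp1.symm⟩
    · intro x hx
      rcases nb_comp hx with h | ⟨⟨k, h0, hk, rfl⟩, _⟩
      · exact Or.inl (hNb x h)
      · exact Or.inr ⟨k, by omega, by omega, rfl⟩
    · intro j hj _
      exact ⟨Nat.zero_le _, hj⟩
    · obtain ⟨t, ht, x, ⟨k, h0, hk, rfl⟩, _, hadj⟩ := comp_adj hT hr hrS hW1 hWS
      exact ⟨k, by omega, t, ht, hadj⟩
  · obtain ⟨z, hz⟩ := nb_nonempty hconn hr hvT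
    have hzz : ∀ x, x ∈ Nb G T → x = z := by
      intro x hx
      rcases hNb x hx with rfl | rfl <;> rcases hNb z hz with rfl | rfl
      · rfl
      · exact absurd ⟨hx, hz⟩ hboth
      · exact absurd ⟨hz, hx⟩ hboth
      · rfl
    exact cut hiso hconn h2c IHE (fun c _ => c = v ∨ c = w) (fun _ _ => True)
      hst htriv (fun c0 c2 r r' h0 _ hr hr' hrr => Or.inl (hex c0 r r' h0 hr hr' hrr))
      hz hzz c r hc trivial hcol hr

end Pool.Agent.NH60.BC
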