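import Pool.Agent.NH60.BC.Stm
import Pool.Agent.Y649.FA.StepS

/-!
# Three cops: the robber is confined by two guarded paths
-/

set_option autoImplicit false

namespace Pool.Agent.NH60.BC

open Pool.Agent.Y649.FA Pool.Agent.Helper805.CHS

variable {V : Type} {G : SimpleGraph V}

/-- a chord path which starts on `p` -/
theorem stepS_aux [Finite V] (hiso : ∀ v, ∃ w, G.Adj v w) (hconn : G.Connected)
    (h33 : ¬ K33Model G) {col : V → Bool} (h2c : Two G col) {T : Set V}
    (IHD : ∀ T', T' ⊂ T → WinD G col T')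
    {A B : Set V} {RA RB : V → V → Prop} {p q : ℕ → V} {m n : ℕ}
    (h : SS G T A B RA RB p m q n) (hc : ∃ x, Cand G T p m q n x)
    (c : Fin 3 → V) (r : V) (hr : r ∈ T) (hA : RA (c 0) r) (hB : RB (c 1) r)
    (hcol : col (c 2) = col r) : WR G 3 c r := by
  classical
  have e2 : (Equiv.swap (0 : Fin 3) 1) 2 = 2 :=
    Equiv.swap_apply_of_ne_of_ne (by decide) (by decide)
  set x := Nat.find hc with hxdef
  obtain ⟨a, b, L, w, hL2, hw, hw0, hcase⟩ := Nat.find_spec hc
  rw [← hxdef] at hcase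
  have hxmin : ∀ y, Cand G T p m q n y → x ≤ y := fun y hy => Nat.find_min' hc hy
  have hm1 := h.two.m1
  have hn1 := h.two.n1
  have ham : a ≤ m := by rcases hcase with h | h <;> omega
  have hwp : ∀ k, 0 < k → k < L → ∀ i, i ≤ m → w k ≠ p i := fun k h1 h2 i hi he =>
    h.pT i hi (he ▸ hw.2 k h1 h2)
  have hwq : ∀ k, 0 < k → k < L → ∀ i, i ≤ n → w k ≠ q i := fun k h1 h2 i hi he =>
    h.qT i hi (he ▸ hw.2 k h1 h2)
  have hW1 : w 1 ∈ T := hw.2 1 (by omega) (by omega)
  have hWS : w 1 ∈ IntS w L := ⟨1, by omega, by omega, rfl⟩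
  have hexit : ∀ c0 c1 r r', RA c0 r → RB c1 r → r ∈ T → r' ∉ T → G.Adj r r' →
      (c0 = r' ∨ G.Adj c0 r') ∨ (c1 = r' ∨ G.Adj c1 r') := by
    intro c0 c1 r r' h0 h1 hr hr' hrr
    rcases h.nb r' ⟨hr', r, hr, hrr⟩ with h2 | h2
    · exact Or.inl (h.sgA.2 c0 r r' h0 hr h2 hrr)
    · exact Or.inr (h.sgB.2 c1 r r' h1 hr h2 hrr)
  -- the part common to both cases
  have common : ∀ (β : ℕ → V) (v s : ℕ), w L = β v →
      (∀ i, i ≤ s → β (v + i) ∉ T) →
      (∀ k, k < a + L + s → G.Adj (cat3 p a w L β v k) (cat3 p a w L β v (k + 1))) →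
      (∀ i j, i ≤ a + L + s → j ≤ a + L + s → cat3 p a w L β v i = cat3 p a w L β v j → i = j) →
      GeoT G T (cat3 p a w L β v) (a + L + s) →
      (∀ (c : Fin 3 → V) r ℓ, Lev G T (cat3 p a w L β v) (a + L + s) ℓ →
        Par T (cat3 p a w L β v) (a + L + s) ℓ col → RA (c 0) r →
        RB (c 1) r → low (cat3 p a w L β v) (a + L + s) ℓ (c 2) r →
        col (c 2) = col r → r ∈ T → r ∉ IntS w L →
        (∀ i, i ≤ a + L + s → cat3 p a w L β v i ∉ Comp G (T \ IntS w L) r) →
        (∃ j, j ≤ a + L + s ∧ ∃ u, u ∈ Comp G (T \ IntS w L) r ∧ G.Adj u (cat3 p a w L β v j)) →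
        (∃ t ∈ Comp G (T \ IntS w L) r, ∃ k, 0 < k ∧ k < L ∧ G.Adj t (w k)) →
        WR G 3 c r) → WR G 3 c r := by
    intro β v s hwL hβT hadj hinj hgeo hgoal
    have v2 : ∀ k, k ≤ L → cat3 p a w L β v (a + k) = w k := by
      intro k hk
      rw [cat3_2 hw0.symm (by omega) (by omega)]; congr 1; omega
    have hP0 : cat3 p a w L β v 0 ∉ T := by
      rw [cat3_1 (Nat.zero_le _)]; exact h.pT 0 (Nat.zero_le _)
    obtain ⟨ℓ, hlev, hreal, -⟩ := exists_lev (by omega : 1 ≤ a + L + s) hadj hinj hgeo hP0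
      (fun u hu => by
        obtain ⟨L', w', h1, h2, h3⟩ := h.conn (w 1) hW1 u hu
        exact ⟨a + 1, by omega, L', w', h1, by rw [h2, v2 1 (by omega)], h3⟩)
    have hpar : Par T (cat3 p a w L β v) (a + L + s) ℓ col := par_of_real h2c hadj hreal
    refine Pool.Agent.NH60.BC.pair_est hiso hconn h2c h.sgA.1 h.sgB.1 hexit hlev hpar ?_ c r
      hA hB hcol hr
    intro c r hc0 hc1 hlow hcol hr hrP
    have hrS : r ∉ IntS w L := by
      rintro ⟨k, h0, hk, rfl⟩
      exact hrP (a + k) (by omega) (v2 k hk.le).symm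
    have hadj3 : ∃ t ∈ Comp G (T \ IntS w L) r, ∃ k, 0 < k ∧ k < L ∧ G.Adj t (w k) := by
      obtain ⟨t, ht, x, ⟨k, h0, hk, rfl⟩, _, hadj'⟩ := comp_adj h.conn hr hrS hW1 hWS
      exact ⟨t, ht, k, h0, hk, hadj'⟩
    refine hgoal c r ℓ hlev hpar hc0 hc1 hlow hcol hr hrS ?_ ?_ hadj3
    · intro i hi hiC
      have h1 := comp_sub hiC
      by_cases c1 : i ≤ a
      · rw [cat3_1 c1] at h1
        exact h.pT i (by omega) h1.1
      · by_cases c2 : i < a + L
        · rw [cat3_2 hw0.symm (by omega) c2.le] at h1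
          exact h1.2 ⟨i - a, by omega, by omega, rfl⟩
        · rw [cat3_3 hw0.symm hwL (by omega)] at h1
          exact hβT _ (by omega) h1.1
    · obtain ⟨t, ht, k, h0, hk, hadj'⟩ := hadj3
      exact ⟨a + k, by omega, t, ht, by rwa [v2 k hk.le]⟩
  rcases hcase with ⟨hwL, hab, hb, hx⟩ | ⟨hwL, ha, hb0, hb, hx⟩
  · -- chord between two vertices of `p`
    have hmin : ∀ i, i ≤ a → ∀ j, j ≤ m - b → ∀ L' w', Wk G T L' w' → w' 0 = p i →
        w' L' = p (b + j) → 2 ≤ L' → a + L + j ≤ i + L' := by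
      intro i hi j hj L' w' h1 h2 h3 h4
      have := hxmin _ ⟨i, b + j, L', w', h4, h1, h2, Or.inl ⟨h3, by omega, by omega, rfl⟩⟩
      omega
    have hwinj := min_inj hL2 hw (by rw [hw0]; exact h.pT a ham)
      (by rw [hwL]; exact h.pT b hb)
      (by rw [hw0, hwL]; intro he; have := h.two.pinj _ _ ham hb he; omega)
      (fun L' w' h1 h2 h3 h4 => by
        have := hmin a le_rfl 0 (Nat.zero_le _) L' w' h1 (h2.trans hw0) (h3.trans hwL) h4
        omega)
    have hgeo := geo_cat3 (s := m - b) hw0.symm hwL hw (fun i hi => h.pT i (by omega))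
      (fun i hi => h.pT _ (by omega))
      (fun i j hi hj L' w' h1 h2 h3 h4 =>
        h.geoP i j (by omega) (by omega) L' w' h1 h2 h3 (Or.inl h4))
      (fun i j hi hj L' w' h1 h2 h3 h4 => by
        have := h.geoP (b + i) (b + j) (by omega) (by omega) L' w' h1 h2 h3 (Or.inl h4)
        omega) hmin
    refine common p b (m - b) hwL (fun i hi => h.pT _ (by omega))
      (cat3_adj hw0.symm hwL (fun k hk => h.two.padj k (by omega)) hw.1
        (fun k hk => h.two.padj (b + k) (by omega)))
      (cat3_inj_pp h.two hab hb hw0 hwL hwinj hwp) hgeo ?_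
    clear common hr hA hB hcol c r
    intro c r ℓ hlev hpar hA hB hlow hcol hr hrS hPC hQadj hadj3
    set P := cat3 p a w L p b with hPdef
    set T' := Comp G (T \ IntS w L) r with hT'
    have hsub : T' ⊆ T := fun x hx => (comp_sub hx).1
    have hconn' : (G.induce T').Connected := comp_conn ⟨hr, hrS⟩
    have hss : T' ⊂ T := comp_ssub hW1 hWS
    have hwT' : ∀ k, 0 < k → k < L → w k ∉ T' := fun k h0 hk hh => (comp_sub hh).2 ⟨k, h0, hk, rfl⟩
    have hpT' : ∀ i, i ≤ m → p i ∉ T' := fun i hi hh => h.pT i hi (hsub hh)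
    have hqT' : ∀ i, i ≤ n → q i ∉ T' := fun i hi hh => h.qT i hi (hsub hh)
    have v1 : ∀ k, k ≤ a → P k = p k := fun k hk => cat3_1 hk
    have v2 : ∀ k, k ≤ L → P (a + k) = w k := by
      intro k hk
      rw [hPdef, cat3_2 hw0.symm (by omega) (by omega)]; congr 1; omega
    have v3 : ∀ k, a + L ≤ k → P k = p (b + (k - (a + L))) := fun k hk => cat3_3 hw0.symm hwL hk
    have hth : ∀ t ∈ T', ∀ i, a < i → i < b → G.Adj t (p i) →
        ∀ t' ∈ T', ∀ x, ((∃ i, i < a ∧ x = p i) ∨ (∃ i, b < i ∧ i ≤ m ∧ x = p i) ∨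
          (∃ i, 0 < i ∧ i < n ∧ x = q i)) → ¬ G.Adj t' x := by
      intro t ht i hi hi2 hadj t' ht' x hx hadj'
      exact theta_pp h33 h.two hab hb hw.1 hw0 hwL hwp hwq hwT' hpT' hqT' hconn'
        ⟨t, ht, i, hi, hi2, hadj⟩ ⟨t', ht', x, hx, hadj'⟩ hadj3
    by_cases hin : ∃ t ∈ T', ∃ i, a < i ∧ i < b ∧ G.Adj t (p i)
    · obtain ⟨t, ht, i, hi, hi2, hadj⟩ := hin
      have hout := hth t ht i hi hi2 hadj
      refine IHD T' hss (A ∩ {x | ∃ i, a ≤ i ∧ i ≤ b ∧ x = p i}) RA P (a + L + (m - b)) ℓ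
        (fun k => p (a + k)) (b - a) a (a + L) ?_ (hpar.mono hsub) c r
        (self_mem_comp ⟨hr, hrS⟩) hA hlow hcol
      refine ⟨comp_tconn, h.sgA.mono hsub Set.inter_subset_left, hlev.mono hsub, hPC,
        cat3_inj_pp h.two hab hb hw0 hwL hwinj hwp, by omega, by omega, ?_, ?_, ?_, ?_, ?_, ?_,
        hQadj⟩
      · have h1 := twoA h.two hab hb hL2 hw.1 hw0 hwL hwinj hwp
        rw [show a + L - a = L by omega]
        exact h1.congr v2
      · intro i hi; exact hpT' _ (by omega)
      · exact (h.geoP.sub (by omega)).mono hsub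
      · rintro x ⟨_, i, hi, hi2, rfl⟩
        exact ⟨i - a, by omega, by show p i = p (a + (i - a)); congr 1; omega⟩
      · intro x hx
        have hx2 := hx
        obtain ⟨hxT', t', ht', hadj'⟩ := hx
        rcases nb_comp hx2 with h1 | ⟨⟨k, h0, hk, rfl⟩, _⟩
        · rcases h.nb x h1 with h2 | h2
          · obtain ⟨i, hi, rfl⟩ := h.Ap x h2
            left
            refine ⟨h2, i, ?_, ?_, rfl⟩
            · by_contra hcon
              exact hout t' ht' _ (Or.inl ⟨i, by omega, rfl⟩) hadj'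
            · by_contra hcon
              exact hout t' ht' _ (Or.inr (Or.inl ⟨i, by omega, hi, rfl⟩)) hadj'
          · obtain ⟨i, hi, rfl⟩ := h.Bq x h2
            right
            by_cases c0 : i = 0
            · subst c0
              by_cases ca : a = 0
              · exact ⟨0, by omega, by omega, by rw [v1 0 (by omega)]; exact h.two.hs.symm⟩
              · exact absurd hadj' (hout t' ht' _ (Or.inl ⟨0, by omega, h.two.hs.symm⟩))
            · by_cases c1 : i = n
              · subst c1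
                by_cases cb : b = m
                · refine ⟨a + L, by omega, by omega, ?_⟩
                  rw [v2 L le_rfl, hwL, cb]; exact h.two.ht.symm
                · exact absurd hadj' (hout t' ht' _
                    (Or.inr (Or.inl ⟨m, by omega, le_rfl, h.two.ht.symm⟩)))
              · exact absurd hadj' (hout t' ht' _ (Or.inr (Or.inr ⟨i, by omega, by omega, rfl⟩)))
        · right
          exact ⟨a + k, by omega, by omega, (v2 k hk.le).symm⟩
      · intro j hj hjN
        obtain ⟨_, t', ht', hadj'⟩ := hjN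
        constructor
        · by_contra hcon
          rw [v1 j (by omega)] at hadj'
          exact hout t' ht' _ (Or.inl ⟨j, by omega, rfl⟩) hadj'
        · by_contra hcon
          rw [v3 j (by omega)] at hadj'
          exact hout t' ht' _ (Or.inr (Or.inl ⟨_, by omega, by omega, rfl⟩)) hadj'
    · have hin' : ∀ t ∈ T', ∀ i, a < i → i < b → ¬ G.Adj t (p i) := fun t ht i hi hi2 hadj =>
        hin ⟨t, ht, i, hi, hi2, hadj⟩
      refine WR.of_perm (Equiv.swap 0 1) ?_
      refine IHD T' hss B RB P (a + L + (m - b)) ℓ q n 0 (a + L + (m - b)) ?_ (hpar.mono hsub) _ r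
        (self_mem_comp ⟨hr, hrS⟩)
        (by show RB (c (Equiv.swap 0 1 0)) r; rw [Equiv.swap_apply_left]; exact hB)
        (by show low P _ ℓ (c (Equiv.swap 0 1 2)) r; rw [e2]; exact hlow)
        (by show col (c (Equiv.swap 0 1 2)) = col r; rw [e2]; exact hcol)
      refine ⟨comp_tconn, h.sgB.mono hsub le_rfl, hlev.mono hsub, hPC,
        cat3_inj_pp h.two hab hb hw0 hwL hwinj hwp, by omega, by omega, ?_, hqT',
        h.geoQ.mono hsub, h.Bq, ?_, ?_, hQadj⟩
      · have h1 := twoB h.two hab hb hL2 hw.1 hw0 hwL hwinj hwp hwq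
        simpa using h1
      · intro x hx
        have hx2 := hx
        obtain ⟨hxT', t', ht', hadj'⟩ := hx
        rcases nb_comp hx2 with h1 | ⟨⟨k, h0, hk, rfl⟩, _⟩
        · rcases h.nb x h1 with h2 | h2
          · obtain ⟨i, hi, rfl⟩ := h.Ap x h2
            right
            by_cases c1 : i ≤ a
            · exact ⟨i, by omega, by omega, (v1 i c1).symm⟩
            · by_cases c2 : i < b
              · exact absurd hadj' (hin' t' ht' i (by omega) c2)
              · refine ⟨a + L + (i - b), by omega, by omega, ?_⟩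
                rw [v3 _ (by omega)]; congr 1; omega
          · exact Or.inl h2
        · right
          exact ⟨a + k, by omega, by omega, (v2 k hk.le).symm⟩
      · intro j hj _
        exact ⟨Nat.zero_le _, hj⟩
  · -- chord between `p` and `q`
    have hmin : ∀ i, i ≤ a → ∀ j, j ≤ n - b → ∀ L' w', Wk G T L' w' → w' 0 = p i →
        w' L' = q (b + j) → 2 ≤ L' → a + L + j ≤ i + L' := by
      intro i hi j hj L' w' h1 h2 h3 h4
      have := hxmin _ ⟨i, b + j, L', w', h4, h1, h2,
        Or.inr ⟨h3, by omega, by omega, by omega, rfl⟩⟩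
      omega
    have hwinj := min_inj hL2 hw (by rw [hw0]; exact h.pT a ham)
      (by rw [hwL]; exact h.qT b hb)
      (by rw [hw0, hwL]; intro he; have := h.two.cross _ _ ham hb he; omega)
      (fun L' w' h1 h2 h3 h4 => by
        have := hmin a le_rfl 0 (Nat.zero_le _) L' w' h1 (h2.trans hw0) (h3.trans hwL) h4
        omega)
    have hgeo := geo_cat3 (s := n - b) hw0.symm hwL hw (fun i hi => h.pT i (by omega))
      (fun i hi => h.qT _ (by omega))
      (fun i j hi hj L' w' h1 h2 h3 h4 =>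
        h.geoP i j (by omega) (by omega) L' w' h1 h2 h3 (Or.inl h4))
      (fun i j hi hj L' w' h1 h2 h3 h4 => by
        have := h.geoQ (b + i) (b + j) (by omega) (by omega) L' w' h1 h2 h3 (Or.inl h4)
        omega) hmin
    refine common q b (n - b) hwL (fun i hi => h.qT _ (by omega))
      (cat3_adj_pq h.two ha hb hw.1 hw0 hwL)
      (cat3_inj_pq h.two ha hb0 hb hw0 hwL hwinj hwp hwq) hgeo ?_
    clear common hr hA hB hcol c r
    intro c r ℓ hlev hpar hA hB hlow hcol hr hrS hPC hQadj hadj3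
    set P := cat3 p a w L q b with hPdef
    set T' := Comp G (T \ IntS w L) r with hT'
    have hsub : T' ⊆ T := fun x hx => (comp_sub hx).1
    have hconn' : (G.induce T').Connected := comp_conn ⟨hr, hrS⟩
    have hss : T' ⊂ T := comp_ssub hW1 hWS
    have hwT' : ∀ k, 0 < k → k < L → w k ∉ T' := fun k h0 hk hh => (comp_sub hh).2 ⟨k, h0, hk, rfl⟩
    have hpT' : ∀ i, i ≤ m → p i ∉ T' := fun i hi hh => h.pT i hi (hsub hh)
    have hqT' : ∀ i, i ≤ n → q i ∉ T' := fun i hi hh => h.qT i hi (hsub hh)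
    have v1 : ∀ k, k ≤ a → P k = p k := fun k hk => cat3_1 hk
    have v2 : ∀ k, k ≤ L → P (a + k) = w k := by
      intro k hk
      rw [hPdef, cat3_2 hw0.symm (by omega) (by omega)]; congr 1; omega
    have v3 : ∀ k, a + L ≤ k → P k = q (b + (k - (a + L))) := fun k hk => cat3_3 hw0.symm hwL hk
    by_cases hin : ∃ t ∈ T', ∃ x, ((∃ i, i < a ∧ x = p i) ∨ (∃ i, 0 < i ∧ i < b ∧ x = q i)) ∧
        G.Adj t x
    · have hout : ∀ t' ∈ T', ∀ x, ((∃ i, a < i ∧ i < m ∧ x = p i) ∨
          (∃ i, b < i ∧ i ≤ n ∧ x = q i)) → ¬ G.Adj t' x := by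
        intro t' ht' x hx hadj'
        exact theta_pq h33 h.two ha hb0 hb hw.1 hw0 hwL hwp hwq hwT' hpT' hqT' hconn'
          hin ⟨t', ht', x, hx, hadj'⟩ hadj3
      refine WR.of_perm (Equiv.swap 0 1) ?_
      refine IHD T' hss (B ∩ {x | ∃ i, i ≤ b ∧ x = q i}) RB P (a + L + (n - b)) ℓ
        q b 0 (a + L) ?_ (hpar.mono hsub) _ r (self_mem_comp ⟨hr, hrS⟩)
        (by show RB (c (Equiv.swap 0 1 0)) r; rw [Equiv.swap_apply_left]; exact hB)
        (by show low P _ ℓ (c (Equiv.swap 0 1 2)) r; rw [e2]; exact hlow)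
        (by show col (c (Equiv.swap 0 1 2)) = col r; rw [e2]; exact hcol)
      refine ⟨comp_tconn, h.sgB.mono hsub Set.inter_subset_left, hlev.mono hsub, hPC,
        cat3_inj_pq h.two ha hb0 hb hw0 hwL hwinj hwp hwq, by omega, by omega, ?_,
        fun i hi => hqT' i (by omega), ?_, ?_, ?_, ?_, hQadj⟩
      · have h1 := twoC h.two ha hb0 hb hL2 hw.1 hw0 hwL hwinj hwp hwq
        simpa using h1
      · have := (h.geoQ.sub (a := 0) (b := b) (by omega)).mono hsub
        simpa using this
      · rintro x ⟨_, i, hi, rfl⟩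
        exact ⟨i, hi, rfl⟩
      · intro x hx
        have hx2 := hx
        obtain ⟨hxT', t', ht', hadj'⟩ := hx
        rcases nb_comp hx2 with h1 | ⟨⟨k, h0, hk, rfl⟩, _⟩
        · rcases h.nb x h1 with h2 | h2
          · obtain ⟨i, hi, rfl⟩ := h.Ap x h2
            right
            by_cases c1 : i ≤ a
            · exact ⟨i, by omega, by omega, (v1 i c1).symm⟩
            · by_cases c2 : i < m
              · exact absurd hadj' (hout t' ht' _ (Or.inl ⟨i, by omega, c2, rfl⟩))
              · have hi' : i = m := by omega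
                subst hi'
                by_cases cb : b = n
                · refine ⟨a + L, by omega, by omega, ?_⟩
                  rw [v2 L le_rfl, hwL, cb]; exact h.two.ht
                · exact absurd hadj' (hout t' ht' _ (Or.inr ⟨n, by omega, le_rfl, h.two.ht⟩))
          · obtain ⟨i, hi, rfl⟩ := h.Bq x h2
            left
            refine ⟨h2, i, ?_, rfl⟩
            by_contra hcon
            exact hout t' ht' _ (Or.inr ⟨i, by omega, hi, rfl⟩) hadj'
        · right
          exact ⟨a + k, by omega, by omega, (v2 k hk.le).symm⟩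
      · intro j hj hjN
        refine ⟨Nat.zero_le _, ?_⟩
        obtain ⟨_, t', ht', hadj'⟩ := hjN
        by_contra hcon
        rw [v3 j (by omega)] at hadj'
        exact hout t' ht' _ (Or.inr ⟨_, by omega, by omega, rfl⟩) hadj'
    · have hin' : ∀ t ∈ T', ∀ x, ((∃ i, i < a ∧ x = p i) ∨ (∃ i, 0 < i ∧ i < b ∧ x = q i)) →
          ¬ G.Adj t x := fun t ht x hx hadj => hin ⟨t, ht, x, hx, hadj⟩
      refine IHD T' hss (A ∩ {x | ∃ i, a ≤ i ∧ i ≤ m ∧ x = p i}) RA P (a + L + (n - b)) ℓ
        (fun k => p (a + k)) (m - a) a (a + L + (n - b)) ?_ (hpar.mono hsub) c r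
        (self_mem_comp ⟨hr, hrS⟩) hA hlow hcol
      refine ⟨comp_tconn, h.sgA.mono hsub Set.inter_subset_left, hlev.mono hsub, hPC,
        cat3_inj_pq h.two ha hb0 hb hw0 hwL hwinj hwp hwq, by omega, by omega, ?_,
        fun i hi => hpT' _ (by omega), (h.geoP.sub (by omega)).mono hsub, ?_, ?_, ?_, hQadj⟩
      · have h1 := twoD h.two ha hb0 hb hL2 hw.1 hw0 hwL hwinj hwp hwq
        rw [show a + L + (n - b) - a = L + (n - b) by omega]
        exact h1
      · rintro x ⟨_, i, hi, hi2, rfl⟩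
        exact ⟨i - a, by omega, by show p i = p (a + (i - a)); congr 1; omega⟩
      · intro x hx
        have hx2 := hx
        obtain ⟨hxT', t', ht', hadj'⟩ := hx
        rcases nb_comp hx2 with h1 | ⟨⟨k, h0, hk, rfl⟩, _⟩
        · rcases h.nb x h1 with h2 | h2
          · obtain ⟨i, hi, rfl⟩ := h.Ap x h2
            left
            refine ⟨h2, i, ?_, hi, rfl⟩
            by_contra hcon
            exact hin' t' ht' _ (Or.inl ⟨i, by omega, rfl⟩) hadj'
          · obtain ⟨i, hi, rfl⟩ := h.Bq x h2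
            right
            by_cases c1 : b ≤ i
            · refine ⟨a + L + (i - b), by omega, by omega, ?_⟩
              rw [v3 _ (by omega)]; congr 1; omega
            · by_cases c0 : i = 0
              · subst c0
                by_cases ca : a = 0
                · exact ⟨0, by omega, by omega, by rw [v1 0 (by omega)]; exact h.two.hs.symm⟩
                · exact absurd hadj' (hin' t' ht' _ (Or.inl ⟨0, by omega, h.two.hs.symm⟩))
              · exact absurd hadj' (hin' t' ht' _ (Or.inr ⟨i, by omega, by omega, rfl⟩))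
        · right
          exact ⟨a + k, by omega, by omega, (v2 k hk.le).symm⟩
      · intro j hj hjN
        refine ⟨?_, hj⟩
        obtain ⟨_, t', ht', hadj'⟩ := hjN
        by_contra hcon
        rw [v1 j (by omega)] at hadj'
        exact hin' t' ht' _ (Or.inl ⟨j, by omega, rfl⟩) hadj'

theorem stepS [Finite V] (hiso : ∀ v, ∃ w, G.Adj v w) (hconn : G.Connected)
    (h33 : ¬ K33Model G) {col : V → Bool} (h2c : Two G col) {T : Set V}
    (IHD : ∀ T', T' ⊂ T → WinD G col T') : WinS G col T := by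
  intro A B RA RB p m q n h c r hr hA hB hcol
  rcases exists_cand h with hc | hc
  · exact stepS_aux hiso hconn h33 h2c IHD h hc c r hr hA hB hcol
  · refine WR.of_perm (Equiv.swap 0 1) ?_
    refine stepS_aux hiso hconn h33 h2c IHD h.symm hc _ r hr ?_ ?_ ?_
    · show RB (c (Equiv.swap 0 1 0)) r
      rw [Equiv.swap_apply_left]; exact hB
    · show RA (c (Equiv.swap 0 1 1)) r
      rw [Equiv.swap_apply_right]; exact hA
    · show col (c (Equiv.swap 0 1 2)) = col r
      rw [Equiv.swap_apply_of_ne_of_ne (by decide) (by decide)]; exact hcol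

end Pool.Agent.NH60.BC
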