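import Pool.Agent.NH60.BC.Main
import Pool.Agent.NH60.BC.StepE
import Pool.Agent.NH60.BC.StepS
import Pool.Agent.NH60.BC.StepD
import Pool.Agent.NH60.BC.Lower

/-!
# Three fully active cops on bipartite planar graphs: assembly
-/

set_option autoImplicit false

namespace Pool.Agent.NH60.BC

open Pool.Agent.Y649.FA Pool.Agent.Helper805.CHS

theorem taskE : TaskE := fun hiso hconn _ h2c _ IHE IHD => stepE hiso hconn h2c IHE IHD

theorem taskS : TaskS := fun hiso hconn h33 _ h2c _ IHD => stepS hiso hconn h33 h2c IHD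

theorem taskD : TaskD := fun hiso hconn h33 _ h2c _ IHD WS => by
  intro S₁ Rel Q n ℓ p m s t h hpar hreal hle htwo c r hr hc0 hc2 hcol
  exact coreD hiso hconn h33 h2c IHD WS h hpar hreal hle htwo c r hr hc0 hc2 hcol

/-- Three fully active cops win on every connected bipartite graph without a `K₃,₃` model. -/
theorem copsWin_three {V : Type} {G : SimpleGraph V} [Finite V] [Nontrivial V]
    (hconn : G.Connected) (h33 : ¬ K33Model G) (hcol : G.Colorable 2) : CopsWin G 3 :=
  copsWin_three_of taskE taskS taskD hconn h33 hcol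

theorem copsWin_cover {U V : Type} [Finite U] [Nontrivial V] {H : SimpleGraph U}
    {G : SimpleGraph V} (hconn : H.Connected) (h33 : ¬ K33Model H) (hcol : H.Colorable 2)
    (f : H →g G) (hsurj : Function.Surjective f)
    (hloc : ∀ x y, G.Adj (f x) y → ∃ z, H.Adj x z ∧ f z = y) : CopsWin G 3 := by
  have : Nontrivial U := hsurj.nontrivial
  exact copsWin_image f hsurj hloc (copsWin_three hconn h33 hcol)

theorem dod2_colorable : dod2.Colorable 2 := by
  obtain ⟨col, hcol⟩ := dod2_two
  refine ⟨SimpleGraph.Coloring.mk (fun v => if col v then 0 else 1) ?_⟩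
  intro u v huv
  have h1 := hcol u v huv
  cases h2 : col u <;> simp [h1, h2]

theorem dod2_copNumber : copNumber dod2 = 3 := by
  have h3 : CopsWin dod2 3 := copsWin_three dod2_conn dod2_planar.no_k33 dod2_colorable
  apply le_antisymm (Nat.sInf_le h3)
  refine le_csInf ⟨3, h3⟩ ?_
  intro k hk
  by_contra hcon
  exact dod2_not_win (by omega) hk

/-- the largest fully active cop number of the bipartite planar graphs is `3` -/
theorem greatest : IsGreatest {k | ∃ (n : ℕ) (G : SimpleGraph (Fin n)), 2 ≤ n ∧ G.Connected ∧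
    Planar G ∧ G.Colorable 2 ∧ copNumber G = k} 3 := by
  constructor
  · exact ⟨50, dod2, by norm_num, dod2_conn, dod2_planar, dod2_colorable, dod2_copNumber⟩
  · rintro k ⟨n, G, hn, hc, hp, h2, rfl⟩
    have : Nontrivial (Fin n) := Fin.nontrivial_iff_two_le.mpr hn
    exact Nat.sInf_le (copsWin_three hc hp.no_k33 h2)

end Pool.Agent.NH60.BC
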