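import Pool.Agent.NH60.BC.StepDD

/-!
# Three fully active cops win on connected bipartite graphs without a `K₃,₃` model
-/

set_option autoImplicit false

namespace Pool.Agent.NH60.BC

open Pool.Agent.Y649.FA Pool.Agent.Helper805.CHS

/-- the statement of `stepE` -/
def TaskE : Prop :=
  ∀ {V : Type} {G : SimpleGraph V} [Finite V] (_ : ∀ v, ∃ w, G.Adj v w) (_ : G.Connected)
    {col : V → Bool} (_ : Two G col) {T : Set V} (_ : ∀ T', T' ⊂ T → WinE G col T')
    (_ : ∀ T', T' ⊂ T → WinD G col T'), WinE G col T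

/-- the statement of `stepS` -/
def TaskS : Prop :=
  ∀ {V : Type} {G : SimpleGraph V} [Finite V] (_ : ∀ v, ∃ w, G.Adj v w) (_ : G.Connected)
    (_ : ¬ K33Model G) {col : V → Bool} (_ : Two G col) {T : Set V}
    (_ : ∀ T', T' ⊂ T → WinD G col T'), WinS G col T

/-- the statement of `coreD` -/
def TaskD : Prop :=
  ∀ {V : Type} {G : SimpleGraph V} [Finite V] (_ : ∀ v, ∃ w, G.Adj v w) (_ : G.Connected)
    (_ : ¬ K33Model G) {col : V → Bool} (_ : Two G col) {T : Set V}
    (_ : ∀ T', T' ⊂ T → WinD G col T') (_ : WinS G col T), CoreD G col T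

variable {V : Type} {G : SimpleGraph V}

theorem all_win (tE : TaskE) (tS : TaskS) (tD : TaskD) [Finite V]
    (hiso : ∀ v, ∃ w, G.Adj v w) (hconn : G.Connected)
    (h33 : ¬ K33Model G) {col : V → Bool} (h2c : Two G col) :
    ∀ n : ℕ, ∀ T : Set V, T.ncard ≤ n → WinE G col T ∧ WinD G col T := by
  have key : ∀ n : ℕ, ∀ T : Set V, T.ncard < n → WinE G col T ∧ WinD G col T := by
    intro n
    induction n with
    | zero => intro T hT; omega
    | succ n ih =>
      intro T hT
      have IHE : ∀ T', T' ⊂ T → WinE G col T' := fun T' h =>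
        (ih T' (by have := Set.ncard_lt_ncard h (Set.toFinite T); omega)).1
      have IHD : ∀ T', T' ⊂ T → WinD G col T' := fun T' h =>
        (ih T' (by have := Set.ncard_lt_ncard h (Set.toFinite T); omega)).2
      have WS : WinS G col T := tS hiso hconn h33 h2c IHD
      exact ⟨tE hiso hconn h2c IHE IHD, stepD_of hiso hconn h2c IHE (tD hiso hconn h33 h2c IHD WS)⟩
  intro n T hT
  exact key (n + 1) T (by omega)

theorem two_of_colorable (h : G.Colorable 2) : ∃ col : V → Bool, Two G col := by
  classical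
  obtain ⟨C⟩ := h
  refine ⟨fun v => decide (C v = 0), fun u v huv => ?_⟩
  have h1 : C u ≠ C v := C.valid huv
  have key : ∀ a b : Fin 2, a ≠ b → decide (b = 0) = !decide (a = 0) := by decide
  exact key _ _ h1

/-- Three fully active cops win on every finite connected bipartite graph without a `K₃,₃`
model. -/
theorem copsWin_three_of (tE : TaskE) (tS : TaskS) (tD : TaskD) [Finite V] [Nontrivial V]
    (hconn : G.Connected) (h33 : ¬ K33Model G) (hcol : G.Colorable 2) : CopsWin G 3 := by
  classical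
  have hiso := exists_nbr hconn
  obtain ⟨col, h2c⟩ := two_of_colorable hcol
  obtain ⟨v⟩ := hconn.nonempty
  obtain ⟨w, hvw⟩ := hiso v
  refine ⟨![v, v, w], fun r => ?_⟩
  by_cases hr : r = v
  · subst hr
    exact W.caught ⟨0, rfl⟩
  by_cases hrw : r = w
  · subst hrw
    exact W.caught ⟨2, rfl⟩
  refine W.of_move (c' := ![w, w, v]) ?_ ?_
  · intro i
    fin_cases i
    · exact hvw
    · exact hvw
    · exact hvw.symm
  set S : Set V := {v, w} with hS
  have hrS : r ∈ (Set.univ \ S : Set V) := ⟨Set.mem_univ _, by simp [hS, hr, hrw]⟩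
  have main : ∀ c : Fin 3 → V, (c 0 = v ∨ c 0 = w) → col (c 2) = col r → WR G 3 c r := by
    intro c h0 h2
    refine (all_win tE tS tD hiso hconn h33 h2c _ (Comp G (Set.univ \ S) r) le_rfl).1 c r v w
      (self_mem_comp hrS) comp_tconn hvw ?_ ?_ ?_ h0 h2
    · intro h; exact (comp_sub h).2 (by simp [hS])
    · intro h; exact (comp_sub h).2 (by simp [hS])
    · intro x hx
      rcases nb_comp hx with h | ⟨h, _⟩
      · obtain ⟨h, _⟩ := h
        exact absurd (Set.mem_univ _) h
      · simpa [hS] using h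
  by_cases hc : col v = col r
  · exact main _ (Or.inr rfl) hc
  · have hw : col w = col r := by
      rw [h2c v w hvw]
      cases h1 : col v <;> cases h2 : col r <;> simp_all
    refine WR.of_perm (Equiv.swap 0 2) ?_
    refine main _ (Or.inl ?_) ?_
    · show (![w, w, v] : Fin 3 → V) (Equiv.swap 0 2 0) = v
      rw [Equiv.swap_apply_left]; rfl
    · show col ((![w, w, v] : Fin 3 → V) (Equiv.swap 0 2 2)) = col r
      rw [Equiv.swap_apply_right]; exact hw

/-! ### Images under locally surjective homomorphisms -/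

theorem winIn_image {U : Type} {H : SimpleGraph U} {k : ℕ} (f : H →g G)
    (hloc : ∀ x y, G.Adj (f x) y → ∃ z, H.Adj x z ∧ f z = y) {n : ℕ} :
    ∀ {c : Fin k → U} {r : U}, WinIn H k n c r → WinIn G k n (fun i => f (c i)) (f r) := by
  induction n with
  | zero =>
    rintro c r ⟨i, hi⟩
    exact ⟨i, by simp only [hi]⟩
  | succ n ih =>
    intro c r h
    rcases h with ⟨i, hi⟩ | ⟨c', hc, h⟩
    · exact Or.inl ⟨i, by simp only [hi]⟩
    · refine Or.inr ⟨fun i => f (c' i), fun i => f.map_adj (hc i), ?_⟩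
      rcases h with ⟨i, hi⟩ | h
      · exact Or.inl ⟨i, by simp only [hi]⟩
      · refine Or.inr fun r' hr' => ?_
        obtain ⟨z, hz, rfl⟩ := hloc r r' hr'
        exact ih (h z hz)

/-- A winning strategy of `k` cops on `H` gives one on the image of `H` under a locally surjective
homomorphism. -/
theorem copsWin_image {U : Type} {H : SimpleGraph U} {k : ℕ} (f : H →g G)
    (hsurj : Function.Surjective f)
    (hloc : ∀ x y, G.Adj (f x) y → ∃ z, H.Adj x z ∧ f z = y) (h : CopsWin H k) :
    CopsWin G k := by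
  obtain ⟨c, hc⟩ := h
  refine ⟨fun i => f (c i), fun r => ?_⟩
  obtain ⟨x, rfl⟩ := hsurj r
  obtain ⟨n, hn⟩ := hc x
  exact ⟨n, winIn_image f hloc hn⟩

end Pool.Agent.NH60.BC
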