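import Pool.Agent.NH60.BC.Stm

/-!
# Three cops: passing to the canonical level function
-/

set_option autoImplicit false

namespace Pool.Agent.NH60.BC

open Pool.Agent.Y649.FA Pool.Agent.Helper805.CHS

variable {V : Type} {G : SimpleGraph V}

/-- a tracker of the right colour between two level functions -/
def md (col : V → Bool) (Q : ℕ → V) (n : ℕ) (ℓ ℓ' : V → ℕ) (m : ℕ) (c r : V) : Prop :=
  (low Q n ℓ' c r ∨ ∃ i, i ≤ n ∧ c = Q i ∧ min (ℓ r) n ≤ i + 1 ∧ i < min (ℓ' r) n ∧ n ≤ i + m) ∧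
    col c = col r

theorem md_init {col : V → Bool} {Q : ℕ → V} {n : ℕ} {ℓ ℓ' : V → ℕ} {c r : V}
    (hle : ℓ r ≤ ℓ' r) (hc : low Q n ℓ c r) (hcol : col c = col r) : md col Q n ℓ ℓ' n c r := by
  obtain ⟨i, hi, rfl, h1⟩ := hc
  refine ⟨?_, hcol⟩
  by_cases h2 : i < min (ℓ' r) n
  · exact Or.inr ⟨i, hi, rfl, by omega, h2, by omega⟩
  · exact Or.inl ⟨i, hi, rfl, by omega⟩

theorem md_step {col : V → Bool} (h2c : Two G col) {T : Set V} {Q : ℕ → V} {n : ℕ}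
    {ℓ ℓ' : V → ℕ} (h : Lev G T Q n ℓ) (h' : Lev G T Q n ℓ')
    (hp' : Par T Q n ℓ' col) {m : ℕ} {c r r' : V} (hc : md col Q n ℓ ℓ' (m + 1) c r)
    (hr : r ∈ T) (hr' : r' ∈ T) (hrr : G.Adj r r') :
    ∃ c', G.Adj c c' ∧ md col Q n ℓ ℓ' m c' r' := by
  obtain ⟨hc | ⟨i, hi, rfl, h1, h2, h3⟩, hcol⟩ := hc
  · obtain ⟨c', h4, h5⟩ := h'.low_step hc hr hr' hrr
    exact ⟨c', h4, Or.inl h5, h2c.flip hcol h4 hrr⟩
  · have hadj := h.adj i (by omega)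
    refine ⟨Q (i + 1), hadj, ?_, h2c.flip hcol hadj hrr⟩
    have h4 := (hp' r hr i hi).1 hcol.symm
    have h5 := h'.lip r' r hr' hr hrr.symm
    have h6 := h.lip r r' hr hr' hrr
    by_cases h7 : i + 1 = min (ℓ' r') n
    · exact Or.inl ⟨i + 1, by omega, rfl, Or.inl h7⟩
    · exact Or.inr ⟨i + 1, by omega, rfl, by omega, by omega, by omega⟩

theorem md_zero {col : V → Bool} {Q : ℕ → V} {n : ℕ} {ℓ ℓ' : V → ℕ} {c r : V}
    (hc : md col Q n ℓ ℓ' 0 c r) : low Q n ℓ' c r ∧ col c = col r := by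
  obtain ⟨hc | ⟨i, hi, rfl, h1, h2, h3⟩, hcol⟩ := hc
  · exact ⟨hc, hcol⟩
  · omega

theorem md_ent {col : V → Bool} {T : Set V} {Q : ℕ → V} {n : ℕ}
    {ℓ ℓ' : V → ℕ} (h : Lev G T Q n ℓ) (h' : Lev G T Q n ℓ') (hp : Par T Q n ℓ col)
    (hp' : Par T Q n ℓ' col) {m : ℕ} {c r : V} (hc : md col Q n ℓ ℓ' m c r)
    (hr : r ∈ T) {j : ℕ} (hj : j ≤ n) (hrj : G.Adj r (Q j)) : c = Q j ∨ G.Adj c (Q j) := by
  obtain ⟨hc | ⟨i, hi, rfl, h1, h2, h3⟩, hcol⟩ := hc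
  · exact rt_ent h' hp' hr hc hcol hj hrj
  · have h4 := (hp r hr i hi).1 hcol.symm
    have h5 := h'.ent1 r hr j hj hrj
    have h6 := h.ent2 r hr j hj hrj
    exact h.near hi hj (by omega) (by omega)

/-- the statement of `coreD` -/
def CoreD (G : SimpleGraph V) (col : V → Bool) (T : Set V) : Prop :=
  ∀ {S₁ : Set V} {Rel : V → V → Prop} {Q : ℕ → V} {n : ℕ} {ℓ : V → ℕ} {p : ℕ → V} {m s t : ℕ}
    (_ : SD G T S₁ Rel Q n ℓ p m s t) (_ : Par T Q n ℓ col)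
    (_ : ∀ u, u ∈ T → ∃ i, i ≤ n ∧ ∃ L w, Wk G T L w ∧ w 0 = Q i ∧ w L = u ∧ i + L = ℓ u)
    (_ : ∀ i, i ≤ n → ∀ L w, Wk G T L w → w 0 = Q i → w L ∈ T → ℓ (w L) ≤ i + L)
    (_ : ∃ x y, x ∈ Nb G T ∧ y ∈ Nb G T ∧ x ≠ y)
    (c : Fin 3 → V) (r : V) (_ : r ∈ T) (_ : Rel (c 0) r) (_ : low Q n ℓ (c 2) r)
    (_ : col (c 2) = col r), WR G 3 c r

theorem stepD_of [Finite V] (hiso : ∀ v, ∃ w, G.Adj v w) (hconn : G.Connected)
    {col : V → Bool} (h2c : Two G col) {T : Set V}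
    (IHE : ∀ T', T' ⊂ T → WinE G col T') (core : CoreD G col T) : WinD G col T := by
  classical
  intro S₁ Rel Q n ℓ p m s t h hpar c r hr hc0 hc2 hcol
  have hst := h.st
  have htn := h.tn
  obtain ⟨j₀, hj₀, u₀, hu₀, hadj₀⟩ := h.Qadj
  have hz : Q j₀ ∈ Nb G T := ⟨h.QT j₀ hj₀, u₀, hu₀, hadj₀⟩
  by_cases hzz : ∀ x, x ∈ Nb G T → x = Q j₀
  · refine cut hiso hconn h2c IHE Rel (fun c r => low Q n ℓ c r ∧ col c = col r) h.sg.1
      (fun c r r' h1 h2 h3 h4 => low_step' h2c h.lev h1 h2 h3 h4) ?_ hz hzz c r hc0 ⟨hc2, hcol⟩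
      hcol hr
    intro c0 c2 r r' h0 h2 hr hr' hrr
    rcases h.nb r' ⟨hr', r, hr, hrr⟩ with h3 | ⟨j, _, hj, rfl⟩
    · exact Or.inl (h.sg.2 c0 r r' h0 hr h3 hrr)
    · exact Or.inr (rt_ent h.lev hpar hr h2.1 h2.2 (by omega) hrr)
  · push Not at hzz
    obtain ⟨x₁, hx₁, hne⟩ := hzz
    have htwo : ∃ x y, x ∈ Nb G T ∧ y ∈ Nb G T ∧ x ≠ y := ⟨x₁, Q j₀, hx₁, hz, hne⟩
    obtain ⟨ℓ', hlev', hreal, hle⟩ := exists_lev h.lev.n1 h.lev.adj h.Qinj (h.lev.geo h.QT)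
      (h.QT 0 (Nat.zero_le _))
      (fun u hu => by
        obtain ⟨L, w, hw, h0, hL⟩ := h.conn u₀ hu₀ u hu
        have w1 : Wk G T 1 (fun k => if k = 0 then Q j₀ else u₀) := wk_one hadj₀.symm
        have j1 : (fun k : ℕ => if k = 0 then Q j₀ else u₀) 1 = w 0 := by simp [h0]
        refine ⟨j₀, hj₀, 1 + L, _, w1.cat hw j1 (Or.inl (by simpa using hu₀)), ?_, ?_⟩
        · rw [cat_le (Nat.zero_le _)]; simp
        · rw [cat_ge (w := fun k : ℕ => if k = 0 then Q j₀ else u₀) j1 (by omega)]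
          simpa using hL)
    have hll : ∀ u, u ∈ T → ℓ u ≤ ℓ' u := by
      intro u hu
      obtain ⟨i, hi, L, w, hw, h0, hL, he⟩ := hreal u hu
      have := h.lev.le_walk L w hw i hi h0 (by rwa [hL])
      rw [hL] at this
      omega
    have hpar' : Par T Q n ℓ' col := par_of_real h2c h.lev.adj hreal
    have hSD : SD G T S₁ Rel Q n ℓ' p m s t :=
      ⟨h.conn, h.sg, hlev', h.QT, h.Qinj, h.st, h.tn, h.two, h.pT, h.geo, h.S₁p, h.nb, h.Qst,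
        h.Qadj⟩
    refine run hiso T (fun m => ![Rel, fun _ _ => True, md col Q n ℓ ℓ' m]) ?_ ?_ ?_ n c r ?_ hr
    · intro m i c r r' hc hr hr' hrr
      fin_cases i
      · exact h.sg.1 c r r' hc hr hr' hrr
      · obtain ⟨c', hc'⟩ := hiso c
        exact ⟨c', hc', trivial⟩
      · exact md_step h2c h.lev hlev' hpar' hc hr hr' hrr
    · intro m c r r' hc hr hr' hrr
      rcases h.nb r' ⟨hr', r, hr, hrr⟩ with h3 | ⟨j, _, hj, rfl⟩
      · exact ⟨0, h.sg.2 (c 0) r r' (hc 0) hr h3 hrr⟩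
      · exact ⟨2, md_ent h.lev hlev' hpar hpar' (hc 2) hr (by omega) hrr⟩
    · intro c r hc hr
      have h5 : low Q n ℓ' (c 2) r ∧ col (c 2) = col r := md_zero (hc 2)
      exact core hSD hpar' hreal hle htwo c r hr (hc 0) h5.1 h5.2
    · intro i
      fin_cases i
      · exact hc0
      · trivial
      · exact md_init (hll r hr) hc2 hcol

end Pool.Agent.NH60.BC
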