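import Pool.Agent.Y649.FA.CStar

/-!
# Three fully active cops on bipartite graphs without a `K₃,₃` model: states
-/

set_option autoImplicit false

namespace Pool.Agent.NH60.BC

open Pool.Agent.Y649.FA Pool.Agent.Helper805.CHS

variable {V : Type} {G : SimpleGraph V}

/-- `col` is a proper colouring with two colours -/
def Two (G : SimpleGraph V) (col : V → Bool) : Prop := ∀ u v, G.Adj u v → col v = !col u

/-- the level function respects the colouring -/
def Par (T : Set V) (P : ℕ → V) (n : ℕ) (ℓ : V → ℕ) (col : V → Bool) : Prop :=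
  ∀ u, u ∈ T → ∀ i, i ≤ n → (col u = col (P i) ↔ (ℓ u + i) % 2 = 0)

/-- robber confined by one guarded edge; cop `2` has the colour of the robber -/
def WinE (G : SimpleGraph V) (col : V → Bool) (T : Set V) : Prop :=
  ∀ (c : Fin 3 → V) (r v w : V), r ∈ T → TConn G T → G.Adj v w → v ∉ T → w ∉ T →
    (∀ x, x ∈ Nb G T → x = v ∨ x = w) → (c 0 = v ∨ c 0 = w) → col (c 2) = col r → WR G 3 c r

/-- one guarded path `p` (cop `0`), one path `Q` with a tracker of the right colour (cop `2`) -/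
def WinD (G : SimpleGraph V) (col : V → Bool) (T : Set V) : Prop :=
  ∀ S₁ Rel Q n ℓ p m s t, SD G T S₁ Rel Q n ℓ p m s t → Par T Q n ℓ col →
    ∀ (c : Fin 3 → V) (r : V), r ∈ T →
    Rel (c 0) r → low Q n ℓ (c 2) r → col (c 2) = col r → WR G 3 c r

/-- two guarded paths (cops `0`, `1`); cop `2` has the colour of the robber -/
def WinS (G : SimpleGraph V) (col : V → Bool) (T : Set V) : Prop :=
  ∀ A B RA RB p m q n, SS G T A B RA RB p m q n → ∀ (c : Fin 3 → V) (r : V), r ∈ T →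
    RA (c 0) r → RB (c 1) r → col (c 2) = col r → WR G 3 c r

theorem Two.flip {col : V → Bool} (h : Two G col) {c c' r r' : V} (hc : col c = col r)
    (h1 : G.Adj c c') (h2 : G.Adj r r') : col c' = col r' := by
  rw [h c c' h1, h r r' h2, hc]

theorem Par.mono {T T' : Set V} {P : ℕ → V} {n : ℕ} {ℓ : V → ℕ} {col : V → Bool}
    (h : Par T P n ℓ col) (hT : T' ⊆ T) : Par T' P n ℓ col := fun u hu => h u (hT hu)

/-- colours along a walk -/
theorem col_walk {col : V → Bool} (h : Two G col) {L : ℕ} {w : ℕ → V}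
    (hw : ∀ k, k < L → G.Adj (w k) (w (k + 1))) :
    ∀ d a, a + d ≤ L → (col (w (a + d)) = col (w a) ↔ d % 2 = 0) := by
  intro d
  induction d with
  | zero => intro a _; simp
  | succ d ih =>
    intro a ha
    have h1 := ih a (by omega)
    have h2 := h _ _ (hw (a + d) (by omega))
    rw [show a + (d + 1) = a + d + 1 by omega, h2]
    by_cases hd : d % 2 = 0
    · have h3 := h1.2 hd
      rw [h3]
      have h4 : (d + 1) % 2 ≠ 0 := by omega
      simp [h4]
    · have h3 : col (w (a + d)) ≠ col (w a) := fun h => hd (h1.1 h)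
      have h4 : (d + 1) % 2 = 0 := by omega
      simp only [h4, iff_true]
      cases hx : col (w (a + d)) <;> cases hy : col (w a) <;> simp_all

/-- canonical level functions respect the colouring -/
theorem par_of_real {col : V → Bool} (h : Two G col) {T : Set V} {P : ℕ → V} {n : ℕ} {ℓ : V → ℕ}
    (hadj : ∀ i, i < n → G.Adj (P i) (P (i + 1)))
    (hreal : ∀ u, u ∈ T → ∃ i, i ≤ n ∧ ∃ L w, Wk G T L w ∧ w 0 = P i ∧ w L = u ∧ i + L = ℓ u) :
    Par T P n ℓ col := by
  intro u hu j hj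
  obtain ⟨i, hi, L, w, hw, h0, hL, he⟩ := hreal u hu
  have h1 := col_walk h hw.1 L 0 (by omega)
  rw [Nat.zero_add, hL, h0] at h1
  have h2 : (col (P i) = col (P j) ↔ (i + j) % 2 = 0) := by
    rcases Nat.le_total i j with hij | hij
    · have := col_walk h hadj (j - i) i (by omega)
      rw [show i + (j - i) = j by omega] at this
      constructor
      · intro h3
        have := this.1 h3.symm
        omega
      · intro h3
        exact (this.2 (by omega)).symm
    · have := col_walk h hadj (i - j) j (by omega)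
      rw [show j + (i - j) = i by omega] at this
      constructor
      · intro h3
        have := this.1 h3
        omega
      · intro h3
        exact this.2 (by omega)
  rw [← he]
  by_cases c1 : L % 2 = 0
  · rw [h1.2 c1, h2]
    omega
  · have h3 : col u ≠ col (P i) := fun h => c1 (h1.1 h)
    by_cases c2 : (i + j) % 2 = 0
    · have h4 := h2.2 c2
      constructor
      · intro h5
        exact absurd (h5.trans h4.symm) h3
      · intro h5; omega
    · have h4 : col (P i) ≠ col (P j) := fun h => c2 (h2.1 h)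
      constructor
      · intro _; omega
      · intro _
        cases hx : col u <;> cases hy : col (P i) <;> cases hz : col (P j) <;> simp_all

/-- the index of a lower tracker of the right colour -/
theorem rt_index {col : V → Bool} {T : Set V} {P : ℕ → V} {n : ℕ} {ℓ : V → ℕ}
    (hp : Par T P n ℓ col) {c r : V} (hr : r ∈ T) (hc : low P n ℓ c r) (hcol : col c = col r) :
    ∃ i, i ≤ n ∧ c = P i ∧ (i = ℓ r ∨ (n < ℓ r ∧ n ≤ i + 1)) := by
  obtain ⟨i, hi, rfl, h1⟩ := hc
  have h2 := (hp r hr i hi).1 hcol.symm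
  refine ⟨i, hi, rfl, ?_⟩
  omega

/-- a lower tracker of the right colour guards all of the path -/
theorem rt_ent {col : V → Bool} {T : Set V} {P : ℕ → V} {n : ℕ} {ℓ : V → ℕ} (h : Lev G T P n ℓ)
    (hp : Par T P n ℓ col) {c r : V} (hr : r ∈ T) (hc : low P n ℓ c r) (hcol : col c = col r)
    {j : ℕ} (hj : j ≤ n) (hrj : G.Adj r (P j)) : c = P j ∨ G.Adj c (P j) := by
  obtain ⟨i, hi, rfl, h1⟩ := rt_index hp hr hc hcol
  have h2 := h.ent1 r hr j hj hrj
  have h3 := h.ent2 r hr j hj hrj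
  exact h.near hi hj (by omega) (by omega)

/-- such a tracker is also an upper tracker -/
theorem rt_up {col : V → Bool} {T : Set V} {P : ℕ → V} {n : ℕ} {ℓ : V → ℕ}
    (hp : Par T P n ℓ col) {c r : V} (hr : r ∈ T) (hc : low P n ℓ c r) (hcol : col c = col r) :
    up P n ℓ c r := by
  obtain ⟨i, hi, rfl, h1⟩ := rt_index hp hr hc hcol
  exact ⟨i, hi, rfl, by omega⟩

theorem rt_of_up {col : V → Bool} {T : Set V} {P : ℕ → V} {n : ℕ} {ℓ : V → ℕ}
    (hp : Par T P n ℓ col) {c r : V} (hr : r ∈ T) (hc : up P n ℓ c r) (hcol : col c = col r) :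
    low P n ℓ c r := by
  obtain ⟨i, hi, rfl, h1⟩ := hc
  have h2 := (hp r hr i hi).1 hcol.symm
  exact ⟨i, hi, rfl, by omega⟩

theorem low_step' {col : V → Bool} (h2 : Two G col) {T : Set V} {P : ℕ → V} {n : ℕ} {ℓ : V → ℕ}
    (h : Lev G T P n ℓ) {c r r' : V} (hc : low P n ℓ c r ∧ col c = col r) (hr : r ∈ T)
    (hr' : r' ∈ T) (hrr : G.Adj r r') : ∃ c', G.Adj c c' ∧ (low P n ℓ c' r' ∧ col c' = col r') := by
  obtain ⟨c', h3, h4⟩ := h.low_step hc.1 hr hr' hrr
  exact ⟨c', h3, h4, h2.flip hc.2 h3 hrr⟩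

/-- Cop `2` becomes a tracker of the right colour while cops `0`, `1` keep the robber confined. -/
theorem pair_est [Finite V] (hiso : ∀ v, ∃ w, G.Adj v w) (hconn : G.Connected)
    {col : V → Bool} (h2c : Two G col) {T : Set V}
    {R0 R1 : V → V → Prop}
    (h0 : ∀ c r r', R0 c r → r ∈ T → r' ∈ T → G.Adj r r' → ∃ c', G.Adj c c' ∧ R0 c' r')
    (h1 : ∀ c r r', R1 c r → r ∈ T → r' ∈ T → G.Adj r r' → ∃ c', G.Adj c c' ∧ R1 c' r')
    (hex : ∀ c0 c1 r r', R0 c0 r → R1 c1 r → r ∈ T → r' ∉ T → G.Adj r r' →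
      (c0 = r' ∨ G.Adj c0 r') ∨ (c1 = r' ∨ G.Adj c1 r'))
    {P : ℕ → V} {n : ℕ} {ℓ : V → ℕ} (hlev : Lev G T P n ℓ) (hpar : Par T P n ℓ col)
    (hgoal : ∀ (c : Fin 3 → V) r, R0 (c 0) r → R1 (c 1) r → low P n ℓ (c 2) r →
      col (c 2) = col r → r ∈ T → (∀ j, j ≤ n → r ≠ P j) → WR G 3 c r) :
    ∀ (c : Fin 3 → V) r, R0 (c 0) r → R1 (c 1) r → col (c 2) = col r → r ∈ T → WR G 3 c r := by
  intro c r hc0 hc1 hcol hr
  obtain ⟨m, hm⟩ := rlow_init hconn P n ℓ (c 2) r
  refine run hiso T (fun m => ![R0, R1, fun c r => rlow G P n ℓ m c r ∧ col c = col r])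
    ?_ ?_ ?_ m c r ?_ hr
  · intro m i c r r' hc hr hr' hrr
    fin_cases i
    · exact h0 c r r' hc hr hr' hrr
    · exact h1 c r r' hc hr hr' hrr
    · obtain ⟨c', h3, h4⟩ := hlev.rlow_step (show rlow G P n ℓ (m + 1) c r from hc.1) hr hr' hrr
      exact ⟨c', h3, h4, h2c.flip hc.2 h3 hrr⟩
  · intro m c r r' hc hr hr' hrr
    rcases hex (c 0) (c 1) r r' (hc 0) (hc 1) hr hr' hrr with h | h
    · exact ⟨0, h⟩
    · exact ⟨1, h⟩
  · intro c r hc hr
    have hc2 : rlow G P n ℓ 0 (c 2) r ∧ col (c 2) = col r := hc 2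
    have hlow : low P n ℓ (c 2) r := hlev.rlow_zero hc2.1
    refine settle hiso T {x | ∃ j, j ≤ n ∧ x = P j}
      ![R0, R1, fun c r => low P n ℓ c r ∧ col c = col r] ?_ ?_ ?_ c r ?_ hr
    · intro i c r r' hc hr hr' hrr
      fin_cases i
      · exact h0 c r r' hc hr hr' hrr
      · exact h1 c r r' hc hr hr' hrr
      · exact low_step' h2c hlev hc hr hr' hrr
    · intro c r r' hc hr hr' hrr
      rcases hr' with hr' | ⟨j, hj, rfl⟩
      · rcases hex (c 0) (c 1) r r' (hc 0) (hc 1) hr hr' hrr with h | h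
        · exact ⟨0, h⟩
        · exact ⟨1, h⟩
      · have hc2 : low P n ℓ (c 2) r ∧ col (c 2) = col r := hc 2
        exact ⟨2, rt_ent hlev hpar hr hc2.1 hc2.2 hj hrr⟩
    · intro c r hc hr hrS
      have hc2 : low P n ℓ (c 2) r ∧ col (c 2) = col r := hc 2
      exact hgoal c r (hc 0) (hc 1) hc2.1 hc2.2 hr fun j hj he => hrS ⟨j, hj, he⟩
    · intro i
      fin_cases i
      · exact hc 0
      · exact hc 1
      · exact ⟨hlow, hc2.2⟩
  · intro i
    fin_cases i
    · exact hc0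
    · exact hc1
    · exact ⟨hm, hcol⟩

/-- If `T` has only one boundary vertex, the free cop `1` takes over with a guarded edge. -/
theorem cut [Finite V] (hiso : ∀ v, ∃ w, G.Adj v w) (hconn : G.Connected)
    {col : V → Bool} (h2c : Two G col) {T : Set V}
    (IHE : ∀ T', T' ⊂ T → WinE G col T') (R0 R2 : V → V → Prop)
    (h0 : ∀ c r r', R0 c r → r ∈ T → r' ∈ T → G.Adj r r' → ∃ c', G.Adj c c' ∧ R0 c' r')
    (h2 : ∀ c r r', R2 c r → r ∈ T → r' ∈ T → G.Adj r r' → ∃ c', G.Adj c c' ∧ R2 c' r')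
    (hex : ∀ c0 c2 r r', R0 c0 r → R2 c2 r → r ∈ T → r' ∉ T → G.Adj r r' →
      (c0 = r' ∨ G.Adj c0 r') ∨ (c2 = r' ∨ G.Adj c2 r'))
    {z : V} (hz : z ∈ Nb G T) (hzz : ∀ x, x ∈ Nb G T → x = z) :
    ∀ (c : Fin 3 → V) r, R0 (c 0) r → R2 (c 2) r → col (c 2) = col r → r ∈ T → WR G 3 c r := by
  obtain ⟨hzT, u, hu, huz⟩ := hz
  intro c r hc0 hc2 hcol hr
  let R1 : ℕ → V → V → Prop := fun m c _ => (c = z ∨ c = u) ∨ ∃ p : G.Walk c z, p.length ≤ m
  have h1 : ∀ m c r r', R1 (m + 1) c r → ∃ c', G.Adj c c' ∧ R1 m c' r' := by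
    intro m c r r' hc
    rcases hc with (rfl | rfl) | ⟨p, hp⟩
    · exact ⟨u, huz.symm, Or.inl (Or.inr rfl)⟩
    · exact ⟨z, huz, Or.inl (Or.inl rfl)⟩
    · cases p with
      | nil => exact ⟨u, huz.symm, Or.inl (Or.inr rfl)⟩
      | cons hadj p' =>
        rw [SimpleGraph.Walk.length_cons] at hp
        exact ⟨_, hadj, Or.inr ⟨p', by omega⟩⟩
  have h1z : ∀ c r, R1 0 c r → c = z ∨ c = u := by
    intro c r hc
    rcases hc with h | ⟨p, hp⟩
    · exact h
    · exact Or.inl (SimpleGraph.Walk.eq_of_length_eq_zero (Nat.le_zero.mp hp))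
  have h2' : ∀ c r r', (R2 c r ∧ col c = col r) → r ∈ T → r' ∈ T → G.Adj r r' →
      ∃ c', G.Adj c c' ∧ (R2 c' r' ∧ col c' = col r') := by
    intro c r r' hc hr hr' hrr
    obtain ⟨c', h3, h4⟩ := h2 c r r' hc.1 hr hr' hrr
    exact ⟨c', h3, h4, h2c.flip hc.2 h3 hrr⟩
  obtain ⟨p⟩ := hconn.preconnected (c 1) z
  refine run hiso T (fun m => ![R0, R1 m, fun c r => R2 c r ∧ col c = col r]) ?_ ?_ ?_
    p.length c r ?_ hr
  · intro m i c r r' hc hr hr' hrr
    fin_cases i
    · exact h0 c r r' hc hr hr' hrr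
    · exact h1 m c r r' hc
    · exact h2' c r r' hc hr hr' hrr
  · intro m c r r' hc hr hr' hrr
    have hc2 : R2 (c 2) r ∧ col (c 2) = col r := hc 2
    rcases hex (c 0) (c 2) r r' (hc 0) hc2.1 hr hr' hrr with h | h
    · exact ⟨0, h⟩
    · exact ⟨2, h⟩
  · intro c r hc hr
    refine settle hiso T {u} ![R0, fun c _ => c = z ∨ c = u, fun c r => R2 c r ∧ col c = col r]
      ?_ ?_ ?_ c r ?_ hr
    · intro i c r r' hc hr hr' hrr
      fin_cases i
      · exact h0 c r r' hc hr hr' hrr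
      · rcases (show c = z ∨ c = u from hc) with rfl | rfl
        · exact ⟨u, huz.symm, Or.inr rfl⟩
        · exact ⟨z, huz, Or.inl rfl⟩
      · exact h2' c r r' hc hr hr' hrr
    · intro c r r' hc hr hr' hrr
      have hc2 : R2 (c 2) r ∧ col (c 2) = col r := hc 2
      rcases hr' with hr' | hr'
      · rcases hex (c 0) (c 2) r r' (hc 0) hc2.1 hr hr' hrr with h | h
        · exact ⟨0, h⟩
        · exact ⟨2, h⟩
      · have hr'' : r' = u := hr'
        subst hr''
        refine ⟨1, ?_⟩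
        rcases (show c 1 = z ∨ c 1 = r' from hc 1) with h | h
        · right; rw [h]; exact huz.symm
        · exact Or.inl h
    · intro c r hc hr hrS
      have hc2 : R2 (c 2) r ∧ col (c 2) = col r := hc 2
      refine WR.of_perm (Equiv.swap 0 1) ?_
      have hrT' : r ∈ T \ {u} := ⟨hr, hrS⟩
      refine IHE (Comp G (T \ {u}) r) (comp_ssub hu rfl) _ r z u (self_mem_comp hrT') comp_tconn
        huz.symm (fun h => hzT (comp_sub h).1) (fun h => (comp_sub h).2 rfl) ?_ ?_ ?_
      · intro x hx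
        rcases nb_comp hx with h | ⟨h, _⟩
        · exact Or.inl (hzz x h)
        · exact Or.inr h
      · show c (Equiv.swap 0 1 0) = z ∨ c (Equiv.swap 0 1 0) = u
        rw [Equiv.swap_apply_left]
        exact hc 1
      · show col (c (Equiv.swap 0 1 2)) = col r
        rw [Equiv.swap_apply_of_ne_of_ne (by decide) (by decide)]
        exact hc2.2
    · intro i
      fin_cases i
      · exact hc 0
      · exact h1z (c 1) r (hc 1)
      · exact hc 2
  · intro i
    fin_cases i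
    · exact hc0
    · exact Or.inr ⟨p, le_rfl⟩
    · exact ⟨hc2, hcol⟩

end Pool.Agent.NH60.BC
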